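import Pool.Agent.Helper13.ZH.Gd
import Pool.Graph.R_pool_sql_team_seeded_63374d34.N784.CZ.Crv
import Pool.Graph.R_pool_sql_team_seeded_63374d34.N784.CZ.Fin

/-!
The zeros of the primitive Hecke L-functions of a given type away from the critical line, on both sides,
in windows of any height (helper13).
-/

set_option autoImplicit false
set_option linter.unusedSectionVars false

open NumberField Complex Filter Topology Set

namespace Pool.Agent.Helper13.ZH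

open Pool.Agent.A856.SD (Good)
open Pool.Agent.Y773 (TPos LI)
open Pool.Agent.Y767 (Mq Cls cls eq_of_LI)
open Pool.Agent.Y773.IQ (ofM' tM LL LL_eq absNorm_pos')
open Pool.Agent.N784.HC
open Pool.Agent.N784.CZ
open Pool.Agent.N784.AD (pi1 pi1_coe Un one_le_Un cls_card_le hK)
open H370 (mult)
open H370.DL (refl analyticAt_refl order_refl)
open Pool.Agent.H82R3.EK (cnt cnt_eq_sum cnt_prod)

/-- the windows -/
def Wn (δ t H : ℝ) : Set ℂ :=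
  {s | 0 < s.re ∧ s.re < 1 ∧ δ ≤ |s.re - 1 / 2| ∧ t ≤ s.im ∧ s.im ≤ t + H}

lemma Wn_bdd (δ t H : ℝ) : ∀ s ∈ Wn δ t H, ‖s‖ ≤ 1 + (|t| + |t + H|) := by
  rintro s ⟨h1, h2, -, h3, h4⟩
  have h5 := Complex.norm_le_abs_re_add_abs_im s
  have h6 : |s.re| ≤ 1 := by rw [abs_le]; constructor <;> linarith
  have h7 : |s.im| ≤ |t| + |t + H| := by
    rw [abs_le]
    have a1 := neg_abs_le t
    have a2 := le_abs_self (t + H)
    have a3 := abs_nonneg t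
    have a4 := abs_nonneg (t + H)
    constructor <;> linarith
  linarith

lemma Wn_conj (δ t H : ℝ) : {s : ℂ | (starRingEnd ℂ) s ∈ Wn δ t H} = Wn δ (-(t + H)) H := by
  ext s
  constructor
  · rintro ⟨h1, h2, h3, h4, h5⟩
    rw [Complex.conj_re] at h1 h2 h3
    rw [Complex.conj_im] at h4 h5
    exact ⟨h1, h2, h3, by linarith, by linarith⟩
  · rintro ⟨h1, h2, h3, h4, h5⟩
    refine ⟨?_, ?_, ?_, ?_, ?_⟩
    · rw [Complex.conj_re]; exact h1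
    · rw [Complex.conj_re]; exact h2
    · rw [Complex.conj_re]; exact h3
    · rw [Complex.conj_im]; linarith
    · rw [Complex.conj_im]; linarith

section
variable {K : Type} [Field K] [NumberField K] {n : (K →+* ℂ) → ℕ}

/-- the zeros are symmetric with respect to the critical line -/
lemma sym_good {m q : ℕ} {C N : ℝ} {ψ : Ideal (𝓞 K) →*₀ ℂ} {F X : ℂ → ℂ}
    (h : Good K m q C N ψ F X) {z : ℂ} (hz0 : 0 < z.re) (hz1 : z.re < 1) :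
    analyticOrderAt F z = analyticOrderAt F (1 - (starRingEnd ℂ) z) := by
  have hopen : IsOpen {w : ℂ | w.re < 1} := isOpen_lt Complex.continuous_re continuous_const
  have hX : AnalyticAt ℂ X z := by
    refine (DifferentiableOn.analyticAt (s := {w : ℂ | w.re < 1}) (fun w hw => ?_)
      (hopen.mem_nhds hz1))
    exact (h.dX w hw).differentiableWithinAt
  have h1 : F =ᶠ[𝓝 z] fun w => X w * refl F w := by
    filter_upwards [hopen.mem_nhds hz1] with w hw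
    exact h.fe w hw
  rw [analyticOrderAt_congr h1]
  have h2 : analyticOrderAt (fun w => X w * refl F w) z = analyticOrderAt X z +
      analyticOrderAt (refl F) z :=
    analyticOrderAt_mul hX (analyticAt_refl (h.dF.analyticAt _))
  rw [h2, hX.analyticOrderAt_eq_zero.mpr (h.nX z hz0 hz1), zero_add,
    order_refl (h.dF.analyticAt _)]

/-- **both sides of the line** -/
theorem win_prim (hn : CTyp n) (hn0 : n ≠ 0) (h c : ℝ) (hh1 : h ≤ 1) (hc0 : 0 < c)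
    (hc : c < 2 * h - 1) :
    ∃ A : ℝ, 1 ≤ A ∧ ∀ (𝔮 : Ideal (𝓞 K)) (_ : 𝔮 ≠ ⊥) (htop : 𝔮 ≠ ⊤) (T H : ℝ), 1 ≤ H → H ≤ T →
      ((Ideal.absNorm 𝔮 : ℝ) * T ^ Module.finrank ℚ K) ^ h ≤ (Ideal.absNorm 𝔮 : ℝ) →
      ∀ J : Finset (Ideal (𝓞 K) →*₀ ℂ), (∀ ψ ∈ J, ψ ∈ FamN n 𝔮) →
      ∀ t : ℝ, |t| ≤ T → ∀ δ : ℝ, 0 ≤ δ →
      ∑ ψ ∈ J, (cnt (LL K ψ) (Wn δ t H) : ℝ) ≤
        A * (Nat.card (Cls (pi1 htop)) * Un 𝔮 * H *
          Real.log ((Ideal.absNorm 𝔮 : ℝ) * T ^ Module.finrank ℚ K) *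
          ((Ideal.absNorm 𝔮 : ℝ) * T ^ Module.finrank ℚ K) ^ (-(c * δ))) := by
  classical
  obtain ⟨A, hA, hden⟩ := den_core tt_lsp K hn h c hh1 hc0 hc
  obtain ⟨CX, hCX, hgood⟩ := good_data K hn hn0 1
  refine ⟨2 * A, by linarith, ?_⟩
  intro 𝔮 hbot htop T H hH hHT hX J hJ t ht δ hδ
  have hdat : ∀ ψ ∈ J, ∃ (X : ℂ → ℂ) (N : ℝ),
      Good K 1 ((1 + 1) * Fintype.card (K →+* ℂ)) CX N ψ (LL K ψ) X := by
    intro ψ hψ
    obtain ⟨𝔣, h1, h2, h3⟩ := hJ ψ hψ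
    obtain ⟨F, X, hG⟩ := hgood 𝔣 ψ h2 h3
    refine ⟨X, (Ideal.absNorm 𝔣 : ℝ), ?_⟩
    rw [LL_eq K hG.dF hG.ser]
    exact hG
  have hL : ∀ ψ ∈ J, Differentiable ℂ (LL K ψ) ∧ ∀ s : ℂ, 1 < s.re → LL K ψ s = LI ψ s := by
    intro ψ hψ
    obtain ⟨X, N, hG⟩ := hdat ψ hψ
    exact ⟨hG.dF, hG.ser⟩
  have hsym : ∀ ψ ∈ J, ∀ z : ℂ, 0 < z.re → z.re < 1 →
      analyticOrderNatAt (LL K ψ) z = analyticOrderNatAt (LL K ψ) (1 - (starRingEnd ℂ) z) := by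
    intro ψ hψ z hz0 hz1
    obtain ⟨X, N, hG⟩ := hdat ψ hψ
    unfold analyticOrderNatAt
    rw [sym_good hG hz0 hz1]
  have hne : ∀ ψ ∈ J, LL K ψ 2 ≠ 0 := by
    intro ψ hψ
    rw [(hL ψ hψ).2 2 (by norm_num)]
    exact LI_ne (FamN_norm_le (hJ ψ hψ)) (by norm_num)
  have hfin : ∀ ψ ∈ J, {s : ℂ | s ∈ Wn δ t H ∧ LL K ψ s = 0}.Finite := fun ψ hψ =>
    zeros_bdd (hL ψ hψ).1 (hne ψ hψ) (Wn_bdd δ t H)
  obtain ⟨Z, hZ⟩ : ∃ Z : (Ideal (𝓞 K) →*₀ ℂ) → Finset ℂ, ∀ ψ ∈ J, ∀ s, s ∈ Z ψ ↔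
      s ∈ Wn δ t H ∧ LL K ψ s = 0 := by
    refine ⟨fun ψ => if h : ψ ∈ J then (hfin ψ h).toFinset else ∅, fun ψ hψ s => ?_⟩
    simp only [dif_pos hψ]
    rw [Set.Finite.mem_toFinset]
    rfl
  have hcnt : ∀ ψ ∈ J, cnt (LL K ψ) (Wn δ t H) = ∑ z ∈ Z ψ, analyticOrderNatAt (LL K ψ) z := by
    intro ψ hψ
    rw [cnt_eq_sum (Z ψ) (fun s hs => ((hZ ψ hψ s).1 hs).1)
      (fun s hs h0 => (hZ ψ hψ s).2 ⟨hs, h0⟩) (fun s _ => (hL ψ hψ).1.analyticAt s)]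
    rfl
  obtain ⟨Z₁, hZ₁⟩ : ∃ Z₁ : (Ideal (𝓞 K) →*₀ ℂ) → Finset ℂ,
      Z₁ = fun ψ => (Z ψ).filter fun z => 1 / 2 ≤ z.re := ⟨_, rfl⟩
  obtain ⟨Z₂, hZ₂⟩ : ∃ Z₂ : (Ideal (𝓞 K) →*₀ ℂ) → Finset ℂ,
      Z₂ = fun ψ => ((Z ψ).filter fun z => ¬ 1 / 2 ≤ z.re).image
        fun z => 1 - (starRingEnd ℂ) z := ⟨_, rfl⟩
  have e1 := hden 𝔮 hbot htop T H hH hHT hX J hJ (LL K) hL t ht δ hδ Z₁ (by
    intro ψ hψ z hz
    rw [hZ₁] at hz
    simp only [Finset.mem_filter] at hz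
    obtain ⟨h1, h2⟩ := hz
    obtain ⟨⟨a1, a2, a3, a4, a5⟩, -⟩ := (hZ ψ hψ z).1 h1
    rw [abs_of_nonneg (by linarith)] at a3
    exact ⟨by linarith, a4, a5⟩)
  have e2 := hden 𝔮 hbot htop T H hH hHT hX J hJ (LL K) hL t ht δ hδ Z₂ (by
    intro ψ hψ z hz
    rw [hZ₂] at hz
    simp only [Finset.mem_image, Finset.mem_filter] at hz
    obtain ⟨w, ⟨h1, h2⟩, rfl⟩ := hz
    obtain ⟨⟨a1, a2, a3, a4, a5⟩, -⟩ := (hZ ψ hψ w).1 h1
    have h3 : w.re < 1 / 2 := not_le.1 h2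
    rw [abs_of_neg (by linarith)] at a3
    have b1 : (1 - (starRingEnd ℂ) w).re = 1 - w.re := by simp
    have b2 : (1 - (starRingEnd ℂ) w).im = w.im := by simp
    rw [b1, b2]
    exact ⟨by linarith, a4, a5⟩)
  have e3 : ∑ ψ ∈ J, (cnt (LL K ψ) (Wn δ t H) : ℝ) =
      ∑ ψ ∈ J, ∑ z ∈ Z₁ ψ, (analyticOrderNatAt (LL K ψ) z : ℝ) +
      ∑ ψ ∈ J, ∑ z ∈ Z₂ ψ, (analyticOrderNatAt (LL K ψ) z : ℝ) := by
    rw [← Finset.sum_add_distrib]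
    refine Finset.sum_congr rfl fun ψ hψ => ?_
    rw [hcnt ψ hψ]
    push_cast
    rw [← Finset.sum_filter_add_sum_filter_not (Z ψ) (fun z => 1 / 2 ≤ z.re), hZ₁, hZ₂]
    simp only
    congr 1
    rw [Finset.sum_image (fun a _ b _ hab => by
      have h1 : (starRingEnd ℂ) a = (starRingEnd ℂ) b := by
        have := congrArg (fun x : ℂ => 1 - x) hab
        simpa using this
      exact (starRingEnd ℂ).injective h1)]
    refine Finset.sum_congr rfl fun z hz => ?_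
    rw [Finset.mem_filter] at hz
    obtain ⟨⟨a1, a2, -⟩, -⟩ := (hZ ψ hψ z).1 hz.1
    rw [← hsym ψ hψ z a1 a2]
  rw [e3]
  refine (add_le_add e1 e2).trans (le_of_eq ?_)
  ring

end

end Pool.Agent.Helper13.ZH
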