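import Pool.Agent.Helper13.ZH.Wn
import Pool.Graph.R_pool_sql_team_seeded_63374d34.N784.HC.NumN
import Pool.Graph.R_pool_sql_team_seeded_63374d34.N603.CZ.Gro
import Pool.Graph.R_pool_sql_team_seeded_63374d34.N768.CZ.Cru

/-!
The zeros of the product of all the Hecke L-functions of a given type modulo `𝔮` and of their
conjugates, in windows of any height (helper13).
-/

set_option autoImplicit false
set_option linter.unusedSectionVars false

open NumberField Complex Filter Topology Set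

namespace Pool.Agent.Helper13.ZH

open Pool.Agent.Y773 (TPos LI)
open Pool.Agent.Y773.G (cj cj_cj cj_apply)
open Pool.Agent.Y767 (Mq Cls cls eq_of_LI)
open Pool.Agent.Y773.IQ (ofM' tM LL LL_eq absNorm_pos' dv divisor_bound norm_le_tau_phi)
open Pool.Agent.N784.HC
open Pool.Agent.N784.CZ
open Pool.Agent.N784.AD (pi1 pi1_coe Un one_le_Un cls_card_le hK card_units_le one_le_norm)
open Pool.Agent.N833.CZ (norm_ofM'_le)
open H370 (mult)
open Pool.Agent.H82R3.EK (cnt cnt_eq_sum cnt_prod)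
open Pool.Agent.W164.RC (cnt_mul)

section
variable {K : Type} [Field K] [NumberField K] {n : (K →+* ℂ) → ℕ}

/-- few zeros of the L-functions of the characters of conductor one, in all boxes -/
theorem dn0_all (hn : CTyp n) (hn0 : n ≠ 0) :
    ∃ B : ℝ, 0 ≤ B ∧ ∀ (𝔮 : Ideal (𝓞 K)) (_ : 𝔮 ≠ ⊥) (htop : 𝔮 ≠ ⊤) (F : Mq 𝔮 →* ℂˣ),
      F ∈ Dn0 n 𝔮 → ∀ L : ℂ → ℂ, Differentiable ℂ L → (∀ s : ℂ, 1 < s.re → L s = LI (ofM' htop F) s) →
      ∀ T : ℝ, 1 ≤ T → ∀ W : Set ℂ, W ⊆ bx T → (cnt L W : ℝ) ≤ B * T ^ 2 := by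
  classical
  obtain ⟨b2, t2⟩ := span_two K
  obtain ⟨A₀, hA₀, hD⟩ := Pool.Agent.Y772.DK.t_dirK K
  obtain ⟨hfin, -⟩ := Dn_card_le (n := n) b2 t2
  have hex : ∀ F'' : Mq (Ideal.span {(2 : 𝓞 K)}) →* ℂˣ, ∃ (L : ℂ → ℂ) (C' : ℝ),
      F'' ∈ Dn n t2 → Differentiable ℂ L ∧ (∀ s : ℂ, 1 < s.re → L s = LI (ofM' t2 F'') s) ∧
      L 2 ≠ 0 ∧ ∀ T : ℝ, 1 ≤ T →
        ∑ᶠ s ∈ {s : ℂ | 0 < s.re ∧ s.re < 1 ∧ |s.im| ≤ 2 * T ∧ L s = 0},
          (analyticOrderNatAt L s : ℝ) ≤ C' * T ^ 2 := by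
    intro F''
    by_cases h : F'' ∈ Dn n t2
    · obtain ⟨L, C, h1, h2, h3⟩ := Pool.Agent.N603.CZ.t_gro K n hn hn0 _ b2 t2 F'' h
      have hn1 := norm_ofM'_le b2 t2 h
      obtain ⟨-, -, d3, -, -, d6, -⟩ := hD _ hn1
      obtain ⟨C', hC'⟩ := Pool.Agent.N768.CZ.t_cru L C A₀⁻¹ h1 (by positivity) (fun s hs => by
        rw [h2 s (by rw [hs]; norm_num)]
        exact d6 s hs.ge) h3
      refine ⟨L, C', fun _ => ⟨h1, h2, ?_, fun T hT => (hC' T hT).2⟩⟩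
      rw [h2 2 (by norm_num)]
      exact d3 2 (by norm_num)
    · exact ⟨fun _ => 0, 0, fun h' => absurd h' h⟩
  choose L2 C2 h2 using hex
  refine ⟨∑ F'' ∈ hfin.toFinset, |C2 F''|, Finset.sum_nonneg fun _ _ => abs_nonneg _, ?_⟩
  intro 𝔮 hbot htop F hF L hL hLs T hT W hW
  obtain ⟨F'', hF'', hord⟩ := dn0_red hbot htop hF
  obtain ⟨g1, g2, g3, g4⟩ := h2 F'' hF''
  have ho := hord L (L2 F'') hL g1 hLs g2
  have hT2 : 0 ≤ T ^ 2 := by positivity
  have hC : C2 F'' ≤ ∑ F'' ∈ hfin.toFinset, |C2 F''| :=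
    (le_abs_self _).trans (Finset.single_le_sum (f := fun F => |C2 F|) (fun _ _ => abs_nonneg _)
      (hfin.mem_toFinset.mpr hF''))
  have hbxb : ∀ s ∈ bx T, ‖s‖ ≤ 1 + 2 * T := by
    rintro s ⟨a, b, c⟩
    refine (Complex.norm_le_abs_re_add_abs_im s).trans (add_le_add ?_ c)
    rw [abs_of_pos a]
    exact b.le
  have hbfin : {s : ℂ | s ∈ bx T ∧ L2 F'' s = 0}.Finite := zeros_bdd g1 g3 hbxb
  have hcnt : (cnt (L2 F'') (bx T) : ℝ) ≤ C2 F'' * T ^ 2 := by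
    refine le_trans (le_of_eq ?_) (g4 T hT)
    have hset : {s : ℂ | 0 < s.re ∧ s.re < 1 ∧ |s.im| ≤ 2 * T ∧ L2 F'' s = 0} =
        {s : ℂ | s ∈ bx T ∧ L2 F'' s = 0} := by
      ext s
      simp only [bx, Set.mem_ofPred_eq, and_assoc]
    unfold Pool.Agent.H82R3.EK.cnt
    rw [hset, finsum_mem_eq_finite_toFinset_sum _ hbfin,
      finsum_mem_eq_finite_toFinset_sum _ hbfin]
    push_cast
    rfl
  have h5 : cnt L W = cnt (L2 F'') W := cnt_congr hL g1 fun s hs => ho s (hW hs).1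
  have h6 : cnt (L2 F'') W ≤ cnt (L2 F'') (bx T) := cnt_mono hW hbfin
  calc (cnt L W : ℝ) = cnt (L2 F'') W := by rw [h5]
    _ ≤ cnt (L2 F'') (bx T) := by exact_mod_cast h6
    _ ≤ C2 F'' * T ^ 2 := hcnt
    _ ≤ _ := mul_le_mul_of_nonneg_right hC hT2

/-- there is a pair of complex embeddings -/
lemma two_le_deg (hn : CTyp n) (hn0 : n ≠ 0) : 2 ≤ Module.finrank ℚ K := by
  obtain ⟨φ, hφ⟩ : ∃ φ, n φ ≠ 0 := by
    by_contra h
    push Not at h
    exact hn0 (funext h)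
  have h1 : cj φ ≠ φ := by
    intro h
    rcases hn φ with h2 | h2
    · exact hφ h2
    · rw [h] at h2
      exact hφ h2
  rw [← Pool.Agent.Y773.G.card_emb]
  exact Fintype.one_lt_card_iff.2 ⟨_, _, h1⟩

variable (K) in
/-- the number of the classes times the number of the residue classes of units -/
lemma hU_lower {ε : ℝ} (hε : 0 < ε) : ∃ C : ℝ, 1 ≤ C ∧
    ∀ (𝔮 : Ideal (𝓞 K)) (_ : 𝔮 ≠ ⊥) (htop : 𝔮 ≠ ⊤),
      (Ideal.absNorm 𝔮 : ℝ) ^ (1 - ε) ≤ C * (Nat.card (Cls (pi1 htop)) * Un 𝔮) := by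
  obtain ⟨C, hC, hdiv⟩ := divisor_bound K hε
  refine ⟨max C 1, le_max_right _ _, fun 𝔮 hbot htop => ?_⟩
  have hN1 := one_le_norm K hbot
  have a1 := norm_le_tau_phi hbot
  have a2 := card_units_le hbot htop
  have a4 := hdiv 𝔮 hbot
  have b1 : (Ideal.absNorm 𝔮 : ℝ) ≤ (dv 𝔮).ncard * Nat.card (𝓞 K ⧸ 𝔮)ˣ := by exact_mod_cast a1
  have b2 : (Nat.card (𝓞 K ⧸ 𝔮)ˣ : ℝ) ≤ Un 𝔮 * Nat.card (Cls (pi1 htop)) := by
    exact_mod_cast a2
  have hN0 : (0 : ℝ) < Ideal.absNorm 𝔮 := by linarith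
  have hp : 0 < (Ideal.absNorm 𝔮 : ℝ) ^ ε := Real.rpow_pos_of_pos hN0 _
  refine le_of_mul_le_mul_right ?_ hp
  have e1 : (Ideal.absNorm 𝔮 : ℝ) ^ (1 - ε) * (Ideal.absNorm 𝔮 : ℝ) ^ ε = Ideal.absNorm 𝔮 := by
    rw [← Real.rpow_add hN0]
    have : 1 - ε + ε = 1 := by ring
    rw [this, Real.rpow_one]
  rw [e1]
  have hx : (0 : ℝ) ≤ Nat.card (Cls (pi1 htop)) * Un 𝔮 := by positivity
  calc (Ideal.absNorm 𝔮 : ℝ) ≤ (dv 𝔮).ncard * Nat.card (𝓞 K ⧸ 𝔮)ˣ := b1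
    _ ≤ (C * (Ideal.absNorm 𝔮 : ℝ) ^ ε) * (Un 𝔮 * Nat.card (Cls (pi1 htop))) := by
        exact mul_le_mul a4 b2 (Nat.cast_nonneg _) (by positivity)
    _ = C * (Nat.card (Cls (pi1 htop)) * Un 𝔮) * (Ideal.absNorm 𝔮 : ℝ) ^ ε := by ring
    _ ≤ _ := by
        refine mul_le_mul_of_nonneg_right (mul_le_mul_of_nonneg_right (le_max_left _ _) hx) hp.le

/-- the elementary inequality for the characters of conductor one -/
lemma height_le {h c : ℝ} (hc : c < 2 * h - 1) (hc0 : 0 < c) {N T : ℝ} (hN : 1 ≤ N) (hT : 1 ≤ T)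
    {d : ℕ} (hd : 2 ≤ d) (hX : (N * T ^ d) ^ h ≤ N) {δ : ℝ} (hδ : δ ≤ 1 / 2) :
    T ^ 2 ≤ N ^ (1 - (2 * h - 1) / (2 * h)) * (N * T ^ d) ^ (-(c * δ)) := by
  have hh : 1 / 2 < h := by linarith
  have hN0 : 0 < N := by linarith
  have hTd : 1 ≤ T ^ d := one_le_pow₀ hT
  have hX1 : 1 ≤ N * T ^ d := one_le_mul_of_one_le_of_one_le hN hTd
  have hX0 : 0 < N * T ^ d := by linarith
  -- the size of `X`
  have h1 : N * T ^ d ≤ N ^ (1 / h) := by
    have h2 := Real.rpow_le_rpow (by positivity) hX (by positivity : (0 : ℝ) ≤ 1 / h)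
    rw [← Real.rpow_mul hX0.le, mul_one_div_cancel (by linarith), Real.rpow_one] at h2
    exact h2
  have h3 : T ^ 2 ≤ N ^ (1 / h - 1) := by
    have h4 : T ^ 2 ≤ T ^ d := pow_le_pow_right₀ hT hd
    have h5 : N * T ^ d ≤ N * N ^ (1 / h - 1) := by
      have h6 : N * N ^ (1 / h - 1) = N ^ (1 / h) := by
        rw [← Real.rpow_one_add' hN0.le (by
          have : (0 : ℝ) < 1 / h := by positivity
          linarith)]
        congr 1
        ring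
      rw [h6]
      exact h1
    exact h4.trans (le_of_mul_le_mul_left h5 hN0)
  have h7 : (N * T ^ d) ^ (c * δ) ≤ N ^ (c / (2 * h)) := by
    calc (N * T ^ d) ^ (c * δ) ≤ (N * T ^ d) ^ (c / 2) :=
          Real.rpow_le_rpow_of_exponent_le hX1 (by nlinarith)
      _ ≤ (N ^ (1 / h)) ^ (c / 2) := Real.rpow_le_rpow hX0.le h1 (by linarith)
      _ = N ^ (c / (2 * h)) := by
          rw [← Real.rpow_mul hN0.le]
          congr 1
          field_simp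
  rw [Real.rpow_neg hX0.le, ← div_eq_mul_inv, le_div_iff₀ (Real.rpow_pos_of_pos hX0 _)]
  calc T ^ 2 * (N * T ^ d) ^ (c * δ) ≤ N ^ (1 / h - 1) * N ^ (c / (2 * h)) :=
        mul_le_mul h3 h7 (Real.rpow_nonneg hX0.le _) (Real.rpow_nonneg hN0.le _)
    _ = N ^ (1 / h - 1 + c / (2 * h)) := by rw [← Real.rpow_add hN0]
    _ ≤ _ := by
        apply Real.rpow_le_rpow_of_exponent_le hN
        have h8 : 0 < 2 * h := by linarith
        have e1 : 1 / h - 1 + c / (2 * h) = (2 - 2 * h + c) / (2 * h) := by field_simp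
        have e2 : 1 - (2 * h - 1) / (2 * h) = 1 / (2 * h) := by field_simp; ring
        rw [e1, e2]
        exact div_le_div_of_nonneg_right (by linarith) h8.le

/-- **the zeros of all the L-functions of type `n` modulo `𝔮` and of their conjugates** -/
theorem win_all (hn : CTyp n) (hn0 : n ≠ 0) (h c : ℝ) (hh1 : h ≤ 1) (hc0 : 0 < c)
    (hc : c < 2 * h - 1) :
    ∃ A : ℝ, 1 ≤ A ∧ ∀ (𝔮 : Ideal (𝓞 K)) (_ : 𝔮 ≠ ⊥) (htop : 𝔮 ≠ ⊤) (T H : ℝ), 1 ≤ H → H ≤ T →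
      ((Ideal.absNorm 𝔮 : ℝ) * T ^ Module.finrank ℚ K) ^ h ≤ (Ideal.absNorm 𝔮 : ℝ) →
      ∀ L : (Mq 𝔮 →* ℂˣ) → ℂ → ℂ,
      (∀ F ∈ Dn n htop, Differentiable ℂ (L F) ∧ ∀ s : ℂ, 1 < s.re → L F s = LI (ofM' htop F) s) →
      ∀ J : Finset (Mq 𝔮 →* ℂˣ), (∀ F, F ∈ J ↔ F ∈ Dn n htop) →
      ∀ t : ℝ, |t| ≤ T → |t + H| ≤ T → ∀ δ : ℝ, 0 ≤ δ →
      (cnt (fun s => ∏ F ∈ J, (L F s * cf (L F) s)) (Wn δ t H) : ℝ) ≤
        A * (Nat.card (Cls (pi1 htop)) * Un 𝔮 * H *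
          Real.log ((Ideal.absNorm 𝔮 : ℝ) * T ^ Module.finrank ℚ K) *
          ((Ideal.absNorm 𝔮 : ℝ) * T ^ Module.finrank ℚ K) ^ (-(c * δ))) := by
  classical
  obtain ⟨A, hA, hwin⟩ := win_prim (K := K) hn hn0 h c hh1 hc0 hc
  obtain ⟨B, hB, hdn0⟩ := dn0_all (K := K) hn hn0
  obtain ⟨A₁, hA₁, hprim⟩ := primF K hn
  have hd2 := two_le_deg (K := K) hn hn0
  have hh : 1 / 2 < h := by linarith
  obtain ⟨C, hC, hlow⟩ := hU_lower K (ε := (2 * h - 1) / (2 * h)) (by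
    have : 0 < 2 * h - 1 := by linarith
    positivity)
  have hlog2 : 0 < Real.log 2 := Real.log_pos (by norm_num)
  refine ⟨2 * (A + hK K * (B * (C * (1 / Real.log 2)))), ?_, ?_⟩
  · have : 0 ≤ hK K * (B * (C * (1 / Real.log 2))) := by positivity
    linarith
  intro 𝔮 hbot htop T H hH hHT hX L hL J hJ t ht1 ht2 δ hδ
  have hT : 1 ≤ T := hH.trans hHT
  have hN2 : (2 : ℝ) ≤ (Ideal.absNorm 𝔮 : ℝ) := by exact_mod_cast two_le_absNorm hbot htop
  have hUn : (1 : ℝ) ≤ (Un 𝔮 : ℝ) := by exact_mod_cast one_le_Un hbot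
  have hlo := hlow 𝔮 hbot htop
  obtain ⟨hcf, -⟩ := cls_card_le hbot htop
  obtain ⟨hfin, -⟩ := Dn_card_le (n := n) hbot htop
  obtain ⟨hffin, -⟩ := FamN_finite (n := n) hbot htop
  obtain ⟨N, hN⟩ : ∃ N : ℝ, N = (Ideal.absNorm 𝔮 : ℝ) := ⟨_, rfl⟩
  obtain ⟨X, hXd⟩ : ∃ X : ℝ, X = N * T ^ Module.finrank ℚ K := ⟨_, rfl⟩
  obtain ⟨W, hW⟩ : ∃ W : ℝ, W = Nat.card (Cls (pi1 htop)) * Un 𝔮 := ⟨_, rfl⟩
  have hTd : 1 ≤ T ^ Module.finrank ℚ K := one_le_pow₀ hT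
  have hX2 : 2 ≤ X := by
    rw [hXd, hN]
    nlinarith
  have hX0 : 0 < X := by linarith
  have hlX : Real.log 2 ≤ Real.log X := Real.log_le_log (by norm_num) hX2
  have hlX0 : 0 < Real.log X := by linarith
  have hXp : 0 < X ^ (-(c * δ)) := Real.rpow_pos_of_pos hX0 _
  have hW0 : 0 ≤ W := by rw [hW]; positivity
  -- the bound for one window
  obtain ⟨Q, hQ⟩ : ∃ Q : ℝ, Q = W * H * Real.log X * X ^ (-(c * δ)) := ⟨_, rfl⟩
  have hQ0 : 0 ≤ Q := by rw [hQ]; positivity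
  have hL' : ∀ ψ ∈ FamN n 𝔮, Differentiable ℂ (LL K ψ) ∧ ∀ s : ℂ, 1 < s.re → LL K ψ s = LI ψ s := by
    rintro ψ ⟨𝔣, h1, h2, h3⟩
    obtain ⟨-, G, g1, g2, -⟩ := hprim 𝔣 ψ h2 h3
    rw [LL_eq K g1 g2]
    exact ⟨g1, g2⟩
  obtain ⟨Fs, hFs⟩ : ∃ Fs : Finset (Ideal (𝓞 K) →*₀ ℂ), Fs = hffin.toFinset := ⟨_, rfl⟩
  have hFm : ∀ ψ, ψ ∈ Fs ↔ ψ ∈ FamN n 𝔮 := fun ψ => by rw [hFs, Set.Finite.mem_toFinset]
  have hJ0 : ((J.filter (fun F => F ∈ Dn0 n 𝔮)).card : ℝ) ≤ hK K := by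
    have h1 : (J.filter (fun F => F ∈ Dn0 n 𝔮)).card ≤ hK K := by
      refine le_trans ?_ (Dn0_card (n := n) hbot htop)
      rw [← Set.ncard_coe_finset]
      refine Set.ncard_le_ncard (fun F hF => ?_)
        ((Dn_card_le (n := n) hbot htop).1.subset (Dn0_sub htop))
      rw [Finset.mem_coe, Finset.mem_filter] at hF
      exact hF.2
    exact_mod_cast h1
  have hone : ∀ t' : ℝ, |t'| ≤ T → |t' + H| ≤ T →
      ∑ F ∈ J, (cnt (L F) (Wn δ t' H) : ℝ) ≤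
        (A + hK K * (B * (C * (1 / Real.log 2)))) * Q := by
    intro t' ht1' ht2'
    have hWpos : ∀ s ∈ Wn δ t' H, 0 < s.re := fun s hs => hs.1
    have h1 : ∑ F ∈ J, (cnt (L F) (Wn δ t' H) : ℝ) ≤
        ∑ F ∈ Fs.image (tM 𝔮), (cnt (L F) (Wn δ t' H) : ℝ) +
        ∑ F ∈ J.filter (fun F => F ∈ Dn0 n 𝔮), (cnt (L F) (Wn δ t' H) : ℝ) := by
      rw [← Finset.sum_union_inter]
      refine le_trans ?_ (le_add_of_nonneg_right (Finset.sum_nonneg fun _ _ => Nat.cast_nonneg _))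
      refine Finset.sum_le_sum_of_subset_of_nonneg ?_ (fun _ _ _ => Nat.cast_nonneg _)
      intro F hF
      rw [Finset.mem_union]
      rcases dn_cases hbot htop ((hJ F).mp hF) with h | ⟨ψ, h2, h3⟩
      · right
        rw [Finset.mem_filter]
        exact ⟨hF, h⟩
      · left
        rw [Finset.mem_image]
        exact ⟨ψ, (hFm ψ).mpr h2, h3⟩
    have h2 : ∑ F ∈ Fs.image (tM 𝔮), (cnt (L F) (Wn δ t' H) : ℝ) ≤ A * Q := by
      rw [Finset.sum_image (fun ψ hψ ψ' hψ' h => tM_inj hbot htop ((hFm ψ).mp hψ)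
        ((hFm ψ').mp hψ') h)]
      have h3 := hwin 𝔮 hbot htop T H hH hHT hX Fs (fun ψ hψ => (hFm ψ).1 hψ) t' ht1' δ hδ
      rw [← hN, ← hXd, ← hW, ← hQ] at h3
      refine le_trans (le_of_eq (Finset.sum_congr rfl fun ψ hψ => ?_)) h3
      have hψ' := (hFm ψ).mp hψ
      have hF := hL _ (tM_mem htop hψ')
      rw [(cnt_tM hbot htop hψ' hF.1 hF.2 (hL' ψ hψ').1 (hL' ψ hψ').2 hWpos).1]
    have h3 : ∑ F ∈ J.filter (fun F => F ∈ Dn0 n 𝔮), (cnt (L F) (Wn δ t' H) : ℝ) ≤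
        hK K * (B * (C * (1 / Real.log 2))) * Q := by
      by_cases hδ2 : δ ≤ 1 / 2
      · have h4 : B * T ^ 2 ≤ B * (C * (1 / Real.log 2)) * Q := by
          rw [mul_assoc]
          refine mul_le_mul_of_nonneg_left ?_ hB
          have h5 := height_le hc hc0 (by linarith : (1 : ℝ) ≤ (Ideal.absNorm 𝔮 : ℝ)) hT hd2 hX hδ2
          rw [← hN, ← hXd] at h5
          rw [← hN, ← hW] at hlo
          have h6 : 1 ≤ 1 / Real.log 2 * Real.log X := by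
            rw [one_div, inv_mul_eq_div, le_div_iff₀ hlog2, one_mul]
            exact hlX
          calc T ^ 2 ≤ N ^ (1 - (2 * h - 1) / (2 * h)) * X ^ (-(c * δ)) := h5
            _ ≤ (C * W) * X ^ (-(c * δ)) := mul_le_mul_of_nonneg_right hlo hXp.le
            _ = C * (W * X ^ (-(c * δ))) * 1 * 1 := by ring
            _ ≤ C * (W * X ^ (-(c * δ))) * (1 / Real.log 2 * Real.log X) * H := by
                have h7 : 0 ≤ C * (W * X ^ (-(c * δ))) := by positivity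
                gcongr
            _ = C * (1 / Real.log 2) * Q := by rw [hQ]; ring
        calc ∑ F ∈ J.filter (fun F => F ∈ Dn0 n 𝔮), (cnt (L F) (Wn δ t' H) : ℝ)
            ≤ ∑ F ∈ J.filter (fun F => F ∈ Dn0 n 𝔮), (B * (C * (1 / Real.log 2)) * Q) := by
              refine Finset.sum_le_sum fun F hF => ?_
              rw [Finset.mem_filter] at hF
              obtain ⟨k1, k2⟩ := hL F ((hJ F).mp hF.1)
              refine (hdn0 𝔮 hbot htop F hF.2 (L F) k1 k2 T hT _ ?_).trans h4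
              rintro s ⟨a1, a2, -, a3, a4⟩
              refine ⟨a1, a2, ?_⟩
              rw [abs_le] at ht1' ht2' ⊢
              constructor <;> linarith
          _ = ((J.filter (fun F => F ∈ Dn0 n 𝔮)).card : ℝ) * (B * (C * (1 / Real.log 2)) * Q) := by
              rw [Finset.sum_const, nsmul_eq_mul]
          _ ≤ hK K * (B * (C * (1 / Real.log 2)) * Q) :=
              mul_le_mul_of_nonneg_right hJ0 (by positivity)
          _ = _ := by ring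
      · have h4 : Wn δ t' H = ∅ := by
          ext s
          constructor
          · rintro ⟨a1, a2, a3, -⟩
            have : |s.re - 1 / 2| ≤ 1 / 2 := by
              rw [abs_le]
              constructor <;> linarith
            linarith [not_le.1 hδ2]
          · intro h5
            exact absurd h5 (Set.notMem_empty _)
        have h5 : ∀ f : ℂ → ℂ, cnt f (Wn δ t' H) = 0 := by
          intro f
          rw [h4]
          unfold Pool.Agent.H82R3.EK.cnt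
          simp
        simp only [h5, Nat.cast_zero, Finset.sum_const_zero]
        positivity
    refine h1.trans ((add_le_add h2 h3).trans (le_of_eq ?_))
    ring
  -- the product
  have hne : ∀ F ∈ J, L F 2 ≠ 0 := by
    intro F hF
    have hF' := (hJ F).mp hF
    rw [(hL F hF').2 2 (by norm_num)]
    exact LI_ne (norm_ofM'_le hbot htop hF') (by norm_num)
  have hne' : ∀ F ∈ J, cf (L F) 2 ≠ 0 := by
    intro F hF
    unfold cf
    rw [Ne, map_eq_zero, map_ofNat]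
    exact hne F hF
  have hd : ∀ F ∈ J, Differentiable ℂ (L F) := fun F hF => (hL F ((hJ F).mp hF)).1
  have hd' : ∀ F ∈ J, Differentiable ℂ (cf (L F)) := fun F hF => cf_diff (hd F hF)
  have hWb := Wn_bdd δ t H
  have htot : cnt (fun s => ∏ F ∈ J, (L F s * cf (L F) s)) (Wn δ t H) =
      ∑ F ∈ J, (cnt (L F) (Wn δ t H) + cnt (cf (L F)) (Wn δ t H)) := by
    have hdm : ∀ F ∈ J, Differentiable ℂ (fun s => L F s * cf (L F) s) := fun F hF =>
      (hd F hF).mul (hd' F hF)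
    have hnem : ∀ F ∈ J, (fun s => L F s * cf (L F) s) 2 ≠ 0 := fun F hF =>
      mul_ne_zero (hne F hF) (hne' F hF)
    rw [cnt_prod J (fun F s => L F s * cf (L F) s) (fun F hF s _ => (hdm F hF).analyticAt s)
      (fun F hF s _ => order_ne_top (hdm F hF) (hnem F hF) s)
      (fun F hF => zeros_bdd (hdm F hF) (hnem F hF) hWb)]
    refine Finset.sum_congr rfl fun F hF => ?_
    exact cnt_mul (fun s _ => (hd F hF).analyticAt s) (fun s _ => (hd' F hF).analyticAt s)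
      (fun s _ => order_ne_top (hd F hF) (hne F hF) s)
      (fun s _ => order_ne_top (hd' F hF) (hne' F hF) s)
      (zeros_bdd (hd F hF) (hne F hF) hWb) (zeros_bdd (hd' F hF) (hne' F hF) hWb)
  have hcf : ∀ F ∈ J, cnt (cf (L F)) (Wn δ t H) = cnt (L F) (Wn δ (-(t + H)) H) := by
    intro F hF
    rw [cnt_cf (hd F hF), Wn_conj]
  have k1 := hone t ht1 ht2
  have k2 := hone (-(t + H)) (by rw [abs_neg]; exact ht2) (by
    have : -(t + H) + H = -t := by ring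
    rw [this, abs_neg]
    exact ht1)
  rw [htot, ← hN, ← hXd, ← hW, ← hQ]
  push_cast
  rw [Finset.sum_add_distrib]
  have e1 : ∑ F ∈ J, (cnt (cf (L F)) (Wn δ t H) : ℝ) =
      ∑ F ∈ J, (cnt (L F) (Wn δ (-(t + H)) H) : ℝ) :=
    Finset.sum_congr rfl fun F hF => by rw [hcf F hF]
  rw [e1]
  refine (add_le_add k1 k2).trans (le_of_eq ?_)
  ring

end

end Pool.Agent.Helper13.ZH
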