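import Pool.Agent.Helper13.ZH.Low
import Pool.Agent.Helper13.CM.Core

/-!
The zeros of `L(E/K, s)` away from the line `Re s = 1`, `K` a narrow ray class field of `M`, for a curve
whose L-function over `M` comes from a Hecke character (helper13).
-/

set_option autoImplicit false
set_option linter.unusedSectionVars false

open NumberField Complex Filter Topology Set IsDedekindDomain

namespace Pool.Agent.Helper13.ZH

open Pool.Agent.Helper13.CM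
open Pool.Agent.Y773 (TPos LI)
open Pool.Agent.Y767 (Mq Cls cls eq_of_LI)
open Pool.Agent.Y773.IQ (ofM' tM LL LL_eq absNorm_pos')
open Pool.Agent.N784.HC
open Pool.Agent.N784.AD (pi1 Un one_le_Un cls_card_le hK)
open Pool.Agent.N833.CZ (norm_ofM'_le)
open H370 (zset mult NN Nd Ns)
open Pool.Agent.H82R3.EK (cnt cnt_eq_sum cnt_prod NN_eq Ns_le strip line)
open Pool.Agent.W164.RC (eulerFactor order_shift inj_shift)
open Pool.Agent.N784.CZ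

/-- the windows -/
def Vn (δ t H : ℝ) : Set ℂ :=
  {s | 1 / 2 < s.re ∧ δ ≤ |s.re - 1| ∧ t ≤ s.im ∧ s.im ≤ t + H}

/-- **few zeros away from the line** -/
theorem fewCore (M : Type) [Field M] [NumberField M] {A B : 𝓞 M} {𝔣 : Ideal (𝓞 M)}
    {Φ : Finset (M →+* ℂ)} {ψ : Ideal (𝓞 M) → ℂ} (HC : IsChar A B 𝔣 Φ ψ)
    {h c : ℝ} (hh1 : h ≤ 1) (hc0 : 0 < c) (hc : c < 2 * h - 1) (η : ℝ) (hη : 0 < η) :
    ∃ C δ₀ X₀ : ℝ, 0 < δ₀ ∧ ∀ (𝔮 : Ideal (𝓞 M)), 𝔮 ≠ ⊥ → 𝔮 ≠ ⊤ → 𝔮 ≤ 𝔣 →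
    ∀ (K : Type) [Field K] [NumberField K] (ι : 𝓞 M →+* 𝓞 K)
      (art : Ideal (𝓞 M) → (𝓞 K ≃+* 𝓞 K)), IsRCF 𝔮 K ι art →
    ∃ G : ℂ → ℂ, Differentiable ℂ G ∧
      (∀ s : ℂ, 3 / 2 < s.re → HasProd (open Classical in fun v : HeightOneSpectrum (𝓞 K) =>
        if 𝔮.map ι ≤ v.asIdeal then 1 else
          (ep (bet ψ ι v) (Ideal.absNorm v.asIdeal) s)⁻¹) (G s)) ∧
      (∀ s : ℂ, 3 / 2 ≤ s.re → G s ≠ 0) ∧
      (∀ T H t δ : ℝ, 1 ≤ H → H ≤ T →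
        ((Ideal.absNorm 𝔮 : ℝ) * T ^ Module.finrank ℚ M) ^ h ≤ (Ideal.absNorm 𝔮 : ℝ) →
        |t| ≤ T → |t + H| ≤ T → 0 ≤ δ →
        (cnt G (Vn δ t H) : ℝ) ≤ C * ((Module.finrank ℚ K : ℝ) / (Module.finrank ℚ M : ℝ) *
          Un 𝔮 * H * Real.log ((Ideal.absNorm 𝔮 : ℝ) * T ^ Module.finrank ℚ M) *
          ((Ideal.absNorm 𝔮 : ℝ) * T ^ Module.finrank ℚ M) ^ (-(c * δ)))) ∧
      (X₀ ≤ (Ideal.absNorm 𝔮 : ℝ) → (Un 𝔮 : ℝ) ≤ (Ideal.absNorm 𝔮 : ℝ) ^ δ₀ →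
        ∀ T : ℝ, (Ideal.absNorm 𝔮 : ℝ) ^ η ≤ T →
        ((Ideal.absNorm 𝔮 : ℝ) * (2 * T) ^ Module.finrank ℚ M) ^ h ≤ (Ideal.absNorm 𝔮 : ℝ) →
        (Module.finrank ℚ K : ℝ) / (Module.finrank ℚ M : ℝ) * (T / (2 * Real.pi) *
          Real.log ((Ideal.absNorm 𝔮 : ℝ) * T ^ Module.finrank ℚ M)) ≤ (cnt G (Vn 0 T T) : ℝ) ∧
        ∀ δ : ℝ, 0 ≤ δ → (cnt G (Vn δ T T) : ℝ) ≤ C * (Un 𝔮 *
          ((Ideal.absNorm 𝔮 : ℝ) * T ^ Module.finrank ℚ M) ^ (-(c * δ))) * (cnt G (Vn 0 T T) : ℝ)) := by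
  classical
  have hhn : CTyp (ty Φ) := ty_ctyp HC.typ
  have hhn0 : ty Φ ≠ 0 := ty_ne HC.typ
  have hh0 : 0 < h := by linarith
  obtain ⟨A₀, hA₀, hall⟩ := win_all (K := M) hhn hhn0 h c hh1 hc0 hc
  obtain ⟨δ₀, X₁, hδ₀, hlow⟩ := low_all M hhn hhn0 h hh0 (1 / 2) η (by norm_num) hη
  obtain ⟨d, hd⟩ : ∃ d : ℕ, d = Module.finrank ℚ M := ⟨_, rfl⟩
  have hd1 : 1 ≤ d := by rw [hd]; exact Module.finrank_pos
  rw [← hd]
  refine ⟨A₀ * (2 * Real.pi * (d + 1)), δ₀, max X₁ 2, hδ₀,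
    fun 𝔮 hbot htop hle K _ _ ι art hK => ?_⟩
  have hπ := Real.pi_gt_three
  have hd0 : (0 : ℝ) ≤ (d : ℝ) := Nat.cast_nonneg _
  obtain ⟨F₁, hF₁⟩ : ∃ F₁ : Mq 𝔮 →* ℂˣ, F₁ ∈ Dn (ty Φ) htop :=
    ⟨HC.F hle hbot htop, HC.F_mem hle hbot htop⟩
  have hfin : (Dn (ty Φ) htop).Finite := (Dn_card_le (n := ty Φ) hbot htop).1
  have hex : ∀ F : Mq 𝔮 →* ℂˣ, ∃ L : ℂ → ℂ, F ∈ Dn (ty Φ) htop → (Differentiable ℂ L ∧
      ∀ s : ℂ, 1 < s.re → L s = LI (ofM' htop F) s) := by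
    intro F
    by_cases h : F ∈ Dn (ty Φ) htop
    · obtain ⟨L, h1, h2⟩ := ent_of hhn hhn0 hbot htop h
      exact ⟨L, fun _ => ⟨h1, h2⟩⟩
    · exact ⟨fun _ => 0, fun h' => absurd h' h⟩
  choose L hL using hex
  obtain ⟨J, hJ⟩ : ∃ J : Finset (Mq 𝔮 →* ℂˣ), J = hfin.toFinset := ⟨_, rfl⟩
  have hJm : ∀ F, F ∈ J ↔ F ∈ Dn (ty Φ) htop := fun F => by rw [hJ, Set.Finite.mem_toFinset]
  obtain ⟨G, hG⟩ : ∃ G : ℂ → ℂ, G = fun s => ∏ F ∈ J, (L F s * cf (L F) s) := ⟨_, rfl⟩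
  have hGd : Differentiable ℂ G := by
    rw [hG]
    exact Differentiable.fun_finsetProd fun F hF =>
      (hL F ((hJm F).mp hF)).1.mul (cf_diff (hL F ((hJm F).mp hF)).1)
  have hGne : ∀ s : ℂ, 1 ≤ s.re → G s ≠ 0 := by
    intro s hs
    rw [hG]
    simp only
    rw [Finset.prod_ne_zero_iff]
    intro F hF
    have hF' := (hJm F).mp hF
    refine mul_ne_zero (nv_Dn hhn hhn0 hbot htop hF' (hL F hF').1 (hL F hF').2 hs) ?_
    unfold cf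
    rw [map_ne_zero]
    exact nv_Dn hhn hhn0 hbot htop hF' (hL F hF').1 (hL F hF').2 (by rw [Complex.conj_re]; exact hs)
  have hHd : Differentiable ℂ (fun s => G (s - 1 / 2)) := hGd.comp (differentiable_id.sub_const _)
  have hre : ∀ s : ℂ, (s - 1 / 2).re = s.re - 1 / 2 := fun s => by simp
  have him : ∀ s : ℂ, (s - 1 / 2).im = s.im := fun s => by simp
  have hcard : (Nat.card (Cls (pi1 htop)) : ℝ) = (Module.finrank ℚ K : ℝ) / (d : ℝ) := by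
    have h7 := Pool.Agent.N134.CZ.t_deg M 𝔮 hbot htop K ι art hK
    have h9 : (0 : ℝ) < d := by exact_mod_cast hd1
    rw [h7, ← hd]
    push_cast
    field_simp
  have hk : ∀ δ t H : ℝ, cnt (fun s => G (s - 1 / 2)) (Vn δ t H) = cnt G (Wn δ t H) := by
    intro δ t H
    apply cnt_shift
    intro s
    refine ⟨fun ⟨⟨b1, b2, b3, b4⟩, b5⟩ => ⟨⟨?_, ?_, ?_, ?_, ?_⟩, b5⟩,
      fun ⟨⟨b1, b2, b3, b4, b5⟩, b6⟩ => ⟨⟨?_, ?_, ?_, ?_⟩, b6⟩⟩
    · rw [hre]; linarith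
    · by_contra hcon
      exact hGne _ (not_lt.mp hcon) b5
    · rw [hre]
      have : s.re - 1 / 2 - 1 / 2 = s.re - 1 := by ring
      rw [this]
      exact b2
    · rw [him]; exact b3
    · rw [him]; exact b4
    · rw [hre] at b1; linarith
    · rw [hre] at b3
      have : s.re - 1 / 2 - 1 / 2 = s.re - 1 := by ring
      rw [this] at b3
      exact b3
    · rw [him] at b4; exact b4
    · rw [him] at b5; exact b5
  have hU1 : (1 : ℝ) ≤ (Un 𝔮 : ℝ) := by exact_mod_cast one_le_Un hbot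
  have hN2 : (2 : ℝ) ≤ (Ideal.absNorm 𝔮 : ℝ) := by exact_mod_cast two_le_absNorm hbot htop
  have hr0 : 0 ≤ (Module.finrank ℚ K : ℝ) / (d : ℝ) := by positivity
  have hwin : ∀ T H t δ : ℝ, 1 ≤ H → H ≤ T →
        ((Ideal.absNorm 𝔮 : ℝ) * T ^ d) ^ h ≤ (Ideal.absNorm 𝔮 : ℝ) →
        |t| ≤ T → |t + H| ≤ T → 0 ≤ δ →
        (cnt (fun s => G (s - 1 / 2)) (Vn δ t H) : ℝ) ≤ A₀ * ((Module.finrank ℚ K : ℝ) / (d : ℝ) *
          Un 𝔮 * H * Real.log ((Ideal.absNorm 𝔮 : ℝ) * T ^ d) *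
          ((Ideal.absNorm 𝔮 : ℝ) * T ^ d) ^ (-(c * δ))) := by
    intro T H t δ hH hHT hT ht1 ht2 hδ
    have h1 := hall 𝔮 hbot htop T H hH hHT (by rw [← hd]; exact hT) L
      (fun F hF => hL F hF) J hJm t ht1 ht2 δ hδ
    rw [← hd, ← hG, hcard] at h1
    rw [hk]
    exact h1
  refine ⟨fun s => G (s - 1 / 2), hHd, ?_, ?_, ?_, ?_⟩
  · intro s hs
    have h1 := (glue Pool.Agent.N400.CZ.t_split Pool.Agent.N717.CZ.t_local HC hle hbot htop ι art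
      hK).2 s hs
    have h2 : (fun s => G (s - 1 / 2)) s =
        ∏ᶠ F ∈ Dn (ty Φ) htop, (LI (ofM' htop F) (s - 1 / 2) *
        (starRingEnd ℂ) (LI (ofM' htop F) ((starRingEnd ℂ) s - 1 / 2))) := by
      rw [finprod_mem_eq_finite_toFinset_prod _ hfin, hG, ← hJ]
      refine Finset.prod_congr rfl fun F hF => ?_
      have hF' := (hJm F).mp hF
      have e1 : 1 < (s - 1 / 2).re := by
        rw [hre]; linarith
      have e3 : (starRingEnd ℂ) (s - 1 / 2) = (starRingEnd ℂ) s - 1 / 2 := by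
        rw [map_sub, map_div₀, map_one, map_ofNat]
      have e2 : 1 < ((starRingEnd ℂ) s - 1 / 2).re := by
        rw [← e3, Complex.conj_re]; exact e1
      unfold cf
      rw [e3, (hL F hF').2 _ e1, (hL F hF').2 _ e2]
    rw [h2]
    exact h1
  · intro s hs
    exact hGne _ (by rw [hre]; linarith)
  · intro T H t δ hH hHT hT ht1 ht2 hδ
    refine (hwin T H t δ hH hHT hT ht1 ht2 hδ).trans ?_
    have hT1 : 1 ≤ T := hH.trans hHT
    have hX1 : 1 ≤ (Ideal.absNorm 𝔮 : ℝ) * T ^ d := by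
      have := one_le_pow₀ (n := d) hT1
      nlinarith
    refine mul_le_mul_of_nonneg_right ?_ ?_
    · have h1 : (1 : ℝ) ≤ 2 * Real.pi * (d + 1) := by nlinarith
      nlinarith
    · have := Real.log_nonneg hX1
      have h3 : 0 < ((Ideal.absNorm 𝔮 : ℝ) * T ^ d) ^ (-(c * δ)) :=
        Real.rpow_pos_of_pos (by linarith) _
      positivity
  · intro hX hU T hT hTh
    have hX' : X₁ ≤ (Ideal.absNorm 𝔮 : ℝ) := (le_max_left _ _).trans hX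
    have hN0 : (0 : ℝ) < Ideal.absNorm 𝔮 := by linarith
    have hT1 : 1 ≤ T := (Real.one_le_rpow (by linarith) hη.le).trans hT
    have hT0 : 0 < T := by linarith
    have hTd : 1 ≤ T ^ d := one_le_pow₀ hT1
    have h2Td : T ^ d ≤ (2 * T) ^ d := pow_le_pow_left₀ hT0.le (by linarith) d
    have hTh' : ((Ideal.absNorm 𝔮 : ℝ) * T ^ d) ^ h ≤ (Ideal.absNorm 𝔮 : ℝ) := by
      refine le_trans ?_ hTh
      exact Real.rpow_le_rpow (by positivity) (mul_le_mul_of_nonneg_left h2Td hN0.le) hh0.le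
    obtain ⟨-, h1⟩ := hlow 𝔮 hbot htop hX' ⟨F₁, hF₁⟩ hU L hL J hJm T hT (by rw [← hd]; exact hTh')
    rw [← hd, ← hG, hcard] at h1
    have hzb : ∀ δ t H : ℝ, {s : ℂ | s ∈ Wn δ t H ∧ G s = 0}.Finite := fun δ t H =>
      zeros_bdd hGd (hGne 2 (by norm_num)) (Wn_bdd δ t H)
    have h2 : cnt G (strip T (2 * T)) ≤ cnt G (Wn 0 T T) := by
      refine cnt_mono ?_ (hzb _ _ _)
      rintro s ⟨b1, b2, b3, b4⟩
      exact ⟨b1, b2, abs_nonneg _, b3.le, by linarith⟩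
    have h3 : (Module.finrank ℚ K : ℝ) / (d : ℝ) * (T / (2 * Real.pi) *
          Real.log ((Ideal.absNorm 𝔮 : ℝ) * T ^ d)) ≤
          (cnt (fun s => G (s - 1 / 2)) (Vn 0 T T) : ℝ) := by
      rw [hk]
      have h4 : (cnt G (strip T (2 * T)) : ℝ) ≤ (cnt G (Wn 0 T T) : ℝ) := by exact_mod_cast h2
      refine le_trans (le_of_eq ?_) (h1.trans h4)
      field_simp
      ring
    refine ⟨h3, fun δ hδ => ?_⟩
    have h5 := hwin (2 * T) T T δ hT1 (by linarith) hTh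
      (by rw [abs_of_pos hT0]; linarith) (by rw [abs_of_pos (by linarith)]; linarith) hδ
    obtain ⟨X, hXd⟩ : ∃ X : ℝ, X = (Ideal.absNorm 𝔮 : ℝ) * T ^ d := ⟨_, rfl⟩
    obtain ⟨Y, hYd⟩ : ∃ Y : ℝ, Y = (Ideal.absNorm 𝔮 : ℝ) * (2 * T) ^ d := ⟨_, rfl⟩
    obtain ⟨r, hr⟩ : ∃ r : ℝ, r = (Module.finrank ℚ K : ℝ) / (d : ℝ) := ⟨_, rfl⟩
    obtain ⟨Z, hZ⟩ : ∃ Z : ℝ, Z = (cnt (fun s => G (s - 1 / 2)) (Vn 0 T T) : ℝ) := ⟨_, rfl⟩
    rw [← hXd, ← hr, ← hZ] at h3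
    rw [← hYd, ← hr] at h5
    rw [← hXd, ← hZ]
    rw [← hr] at hr0
    have hX2 : 2 ≤ X := by rw [hXd]; nlinarith
    have hXY : X ≤ Y := by
      rw [hXd, hYd]
      exact mul_le_mul_of_nonneg_left h2Td hN0.le
    have hlX : 0 < Real.log X := Real.log_pos (by linarith)
    -- the logarithm
    have hlY : Real.log Y ≤ (d + 1) * Real.log X := by
      have e1 : Y = 2 ^ d * X := by rw [hYd, hXd, mul_pow]; ring
      rw [e1, Real.log_mul (by positivity) (by linarith), Real.log_pow]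
      have h6 : Real.log 2 ≤ Real.log X := Real.log_le_log (by norm_num) hX2
      nlinarith
    have hYX : Y ^ (-(c * δ)) ≤ X ^ (-(c * δ)) := by
      have h7 : 0 ≤ c * δ := by positivity
      rw [Real.rpow_neg (by linarith), Real.rpow_neg (by linarith)]
      exact inv_anti₀ (Real.rpow_pos_of_pos (by linarith) _)
        (Real.rpow_le_rpow (by linarith) hXY h7)
    have hXp : 0 < X ^ (-(c * δ)) := Real.rpow_pos_of_pos (by linarith) _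
    have hA0 : 0 ≤ A₀ := by linarith
    have hYp : 0 < Y ^ (-(c * δ)) := Real.rpow_pos_of_pos (by linarith) _
    calc (cnt (fun s => G (s - 1 / 2)) (Vn δ T T) : ℝ)
        ≤ A₀ * (r * Un 𝔮 * T * Real.log Y * Y ^ (-(c * δ))) := h5
      _ ≤ A₀ * (r * Un 𝔮 * T * ((d + 1) * Real.log X) * X ^ (-(c * δ))) := by
          refine mul_le_mul_of_nonneg_left ?_ hA0
          refine mul_le_mul (mul_le_mul_of_nonneg_left hlY (by positivity)) hYX hYp.le (by positivity)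
      _ = A₀ * (2 * Real.pi * (d + 1)) * (Un 𝔮 * X ^ (-(c * δ))) *
          (r * (T / (2 * Real.pi) * Real.log X)) := by
          field_simp
      _ ≤ A₀ * (2 * Real.pi * (d + 1)) * (Un 𝔮 * X ^ (-(c * δ))) * Z :=
          mul_le_mul_of_nonneg_left h3 (by positivity)

end Pool.Agent.Helper13.ZH
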