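import Pool.Graph.R_pool_sql_team_seeded_63374d34.N784.HC.Fem
import Pool.Graph.R_pool_sql_team_seeded_620a6dc7.A856.SD.Gamf

/-!
The factor of the asymmetric functional equation, real shifts (helper13; adapted from
`Pool.Agent.A856.SD.Gamf`).
-/

set_option autoImplicit false

open Complex Filter Topology MeasureTheory

namespace Pool.Agent.Helper13.ZH

open Pool.Agent.N784.HC (GGm FEm LXm fe_asymM GGm_ne)
open Pool.Agent.A856.SD.GammaJ (Gammaℝ_diff)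

/-- the recursion of the inverse of the gamma function -/
lemma inv_Gamma_shift (m : ℕ) (s : ℂ) : (Complex.Gamma s)⁻¹ =
    (∏ j ∈ Finset.range m, (s + j)) * (Complex.Gamma (s + m))⁻¹ := by
  induction m with
  | zero => simp
  | succ m ih =>
    rw [ih, Finset.prod_range_succ, Complex.one_div_Gamma_eq_self_mul_one_div_Gamma_add_one (s + m)]
    push_cast
    rw [show s + (m : ℂ) + 1 = s + ((m : ℂ) + 1) by ring]
    ring

/-- the ratio of the gamma factors -/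
lemma ratio_bound (m : ℕ) {V : ℝ} (hV : 0 ≤ V) : ∃ A : ℝ, 1 ≤ A ∧ ∀ z : ℂ, 1 / 2 - m ≤ z.re →
    z.re ≤ 1 / 2 → ∀ μ : ℝ, 0 ≤ μ → μ ≤ V →
      ‖Complex.Gammaℝ (1 - z + μ) * (Complex.Gammaℝ (z + μ))⁻¹‖ ≤ A * (1 + ‖z‖) ^ m := by
  obtain ⟨W, hW⟩ : ∃ W : ℝ, W = (1 / 2 + V) / 2 + m + 1 := ⟨_, rfl⟩
  have hm0 : (0 : ℝ) ≤ m := Nat.cast_nonneg m
  have hcont : ContinuousOn Real.Gamma (Set.Icc (1 / 4) W) := by
    intro x hx
    refine (Real.differentiableAt_Gamma fun k => ?_).continuousAt.continuousWithinAt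
    have h1 : (0 : ℝ) ≤ k := Nat.cast_nonneg k
    have h2 := hx.1
    intro h3
    linarith
  have hcont' : ContinuousOn (fun x => (Real.Gamma x)⁻¹) (Set.Icc (1 / 4) W) :=
    hcont.inv₀ fun x hx => (Real.Gamma_pos_of_pos (by linarith [hx.1])).ne'
  obtain ⟨B₁, hB₁⟩ := isCompact_Icc.exists_bound_of_continuousOn hcont
  obtain ⟨B₂, hB₂⟩ := isCompact_Icc.exists_bound_of_continuousOn hcont'
  have hpi := Real.pi_gt_three
  obtain ⟨P, hP⟩ : ∃ P : ℝ, P = Real.pi ^ W := ⟨_, rfl⟩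
  have hP0 : 0 < P := by rw [hP]; positivity
  refine ⟨max 1 (P * (B₁ * B₂) * (1 + V + m) ^ m), le_max_left _ _, ?_⟩
  intro z hz1 hz2 μ hμ0 hμ1
  obtain ⟨a, ha⟩ : ∃ a : ℝ, a = (z.re + μ) / 2 := ⟨_, rfl⟩
  obtain ⟨b, hb⟩ : ∃ b : ℝ, b = (1 - z.re + μ) / 2 := ⟨_, rfl⟩
  obtain ⟨t, ht⟩ : ∃ t : ℝ, t = z.im / 2 := ⟨_, rfl⟩
  have hb4 : 1 / 4 ≤ b := by rw [hb]; linarith
  have hbW : b ≤ W := by rw [hb, hW]; linarith
  have ham : b ≤ a + m := by rw [ha, hb]; linarith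
  have ham4 : 1 / 4 ≤ a + m := by linarith
  have hamW : a + m ≤ W := by rw [ha, hW]; linarith
  have hGam : 0 < Real.Gamma (a + m) := Real.Gamma_pos_of_pos (by linarith)
  have hGb : 0 < Real.Gamma b := Real.Gamma_pos_of_pos (by linarith)
  have p1 := Pool.Agent.H336R4.PF.taskP1 b (a + m) t (by linarith) ham
  -- the first argument
  have e1 : ‖Complex.Gamma ((1 - z + μ) / 2)‖ = ‖Complex.Gamma ((b : ℂ) + t * I)‖ := by
    have h1 : (1 - z + μ) / 2 = (starRingEnd ℂ) ((b : ℂ) + t * I) := by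
      rw [map_add, map_mul, Complex.conj_ofReal, Complex.conj_ofReal, Complex.conj_I, hb, ht]
      conv_lhs => rw [← Complex.re_add_im z]
      push_cast
      ring
    rw [h1, Complex.Gamma_conj, RCLike.norm_conj]
  have e2 : (z + μ) / 2 = (a : ℂ) + t * I := by
    apply Complex.ext
    · simp [ha]
    · simp [ht]
  have e3 : (a : ℂ) + t * I + m = ((a + m : ℝ) : ℂ) + t * I := by push_cast; ring
  have p2 : ‖Complex.Gamma ((b : ℂ) + t * I)‖ * (‖Complex.Gamma (((a + m : ℝ) : ℂ) + t * I)‖)⁻¹ ≤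
      B₁ * B₂ := by
    have hne : Complex.Gamma (((a + m : ℝ) : ℂ) + t * I) ≠ 0 := by
      apply Complex.Gamma_ne_zero_of_re_pos
      simp
      linarith
    have hn0 : 0 < ‖Complex.Gamma (((a + m : ℝ) : ℂ) + t * I)‖ := norm_pos_iff.mpr hne
    rw [← div_eq_mul_inv, div_le_iff₀ hn0]
    have h1 : ‖Complex.Gamma ((b : ℂ) + t * I)‖ ≤
        ‖Complex.Gamma (((a + m : ℝ) : ℂ) + t * I)‖ * Real.Gamma b * (Real.Gamma (a + m))⁻¹ := by
      rw [← div_eq_mul_inv, le_div_iff₀ hGam]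
      exact p1
    refine h1.trans ?_
    have h2 := hB₁ b ⟨hb4, hbW⟩
    have h3 := hB₂ (a + m) ⟨ham4, hamW⟩
    rw [Real.norm_of_nonneg hGb.le] at h2
    rw [Real.norm_of_nonneg (by positivity)] at h3
    have hB1 : 0 ≤ B₁ := hGb.le.trans h2
    calc ‖Complex.Gamma (((a + m : ℝ) : ℂ) + t * I)‖ * Real.Gamma b * (Real.Gamma (a + m))⁻¹ ≤
          ‖Complex.Gamma (((a + m : ℝ) : ℂ) + t * I)‖ * B₁ * B₂ := by gcongr
      _ = _ := by ring
  have p3 : ∏ j ∈ Finset.range m, ‖(a : ℂ) + t * I + j‖ ≤ ((1 + V + m) * (1 + ‖z‖)) ^ m := by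
    have : ∏ j ∈ Finset.range m, ‖(a : ℂ) + t * I + j‖ ≤
        ∏ _j ∈ Finset.range m, ((1 + V + m) * (1 + ‖z‖)) := by
      refine Finset.prod_le_prod (fun j _ => norm_nonneg _) fun j hj => ?_
      rw [Finset.mem_range] at hj
      have hj' : (j : ℝ) ≤ m := by exact_mod_cast hj.le
      rw [← e2]
      have h1 : ‖(z + μ) / 2 + (j : ℂ)‖ ≤ ‖z‖ + V + m := by
        refine (norm_add_le _ _).trans ?_
        rw [norm_div, Complex.norm_natCast, Complex.norm_ofNat]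
        have h2 := norm_add_le z (μ : ℂ)
        rw [Complex.norm_real, Real.norm_of_nonneg hμ0] at h2
        have h3 := norm_nonneg (z + (μ : ℂ))
        linarith
      refine h1.trans ?_
      have h3 := norm_nonneg z
      nlinarith
    rwa [Finset.prod_const, Finset.card_range] at this
  -- assembling
  have hg1 : ‖Complex.Gammaℝ (1 - z + μ)‖ ≤ ‖Complex.Gamma ((b : ℂ) + t * I)‖ := by
    rw [Complex.Gammaℝ_def, norm_mul, e1]
    have h1 : ‖(Real.pi : ℂ) ^ (-(1 - z + (μ : ℂ)) / 2)‖ ≤ 1 := by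
      rw [Complex.norm_cpow_eq_rpow_re_of_pos Real.pi_pos]
      refine Real.rpow_le_one_of_one_le_of_nonpos (by linarith) ?_
      have : (-(1 - z + (μ : ℂ)) / 2).re = -b := by
        rw [hb]
        simp
        ring
      rw [this]
      linarith
    exact mul_le_of_le_one_left (norm_nonneg _) h1
  have hg2 : ‖(Complex.Gammaℝ (z + μ))⁻¹‖ ≤ P * ‖(Complex.Gamma ((a : ℂ) + t * I))⁻¹‖ := by
    rw [Complex.Gammaℝ_def, mul_inv, norm_mul, e2]
    refine mul_le_mul_of_nonneg_right ?_ (norm_nonneg _)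
    rw [← Complex.cpow_neg, Complex.norm_cpow_eq_rpow_re_of_pos Real.pi_pos, hP]
    refine Real.rpow_le_rpow_of_exponent_le (by linarith) ?_
    have : (-(-(z + (μ : ℂ)) / 2)).re = a := by
      rw [ha]
      simp
      ring
    rw [this]
    linarith
  have hg3 : ‖(Complex.Gamma ((a : ℂ) + t * I))⁻¹‖ =
      (∏ j ∈ Finset.range m, ‖(a : ℂ) + t * I + j‖) *
        (‖Complex.Gamma (((a + m : ℝ) : ℂ) + t * I)‖)⁻¹ := by
    rw [inv_Gamma_shift m, norm_mul, norm_prod, e3, norm_inv]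
  have hz0 := norm_nonneg z
  have hB12 : 0 ≤ B₁ * B₂ := le_trans (by positivity) p2
  rw [norm_mul]
  calc ‖Complex.Gammaℝ (1 - z + μ)‖ * ‖(Complex.Gammaℝ (z + μ))⁻¹‖ ≤
        ‖Complex.Gamma ((b : ℂ) + t * I)‖ * (P * ((∏ j ∈ Finset.range m, ‖(a : ℂ) + t * I + j‖) *
        (‖Complex.Gamma (((a + m : ℝ) : ℂ) + t * I)‖)⁻¹)) := by
        rw [← hg3]
        exact mul_le_mul hg1 hg2 (norm_nonneg _) (norm_nonneg _)
    _ = P * (‖Complex.Gamma ((b : ℂ) + t * I)‖ *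
        (‖Complex.Gamma (((a + m : ℝ) : ℂ) + t * I)‖)⁻¹) *
          (∏ j ∈ Finset.range m, ‖(a : ℂ) + t * I + j‖) := by ring
    _ ≤ P * (B₁ * B₂) * ((1 + V + m) * (1 + ‖z‖)) ^ m := by
        refine mul_le_mul (mul_le_mul_of_nonneg_left p2 hP0.le) p3
          (Finset.prod_nonneg fun j _ => norm_nonneg _) (by positivity)
    _ = P * (B₁ * B₂) * (1 + V + m) ^ m * (1 + ‖z‖) ^ m := by rw [mul_pow]; ring
    _ ≤ _ := mul_le_mul_of_nonneg_right (le_max_right _ _) (by positivity)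

variable {ι : Type} [Fintype ι]

/-- the factor -/
noncomputable def Xm (w : ℂ) (R : ℝ) (μ : ι → ℝ) (z : ℂ) : ℂ :=
  w * (R : ℂ) ^ (1 / 2 - z) * ∏ i, (Complex.Gammaℝ (1 - z + μ i) * (Complex.Gammaℝ (z + μ i))⁻¹)

theorem Xm_eq_LXm (w : ℂ) {R : ℝ} (hR : 0 < R) (μ : ι → ℝ) (z : ℂ) :
    Xm w R μ z = LXm w R μ z := by
  have hRc : (R : ℂ) ≠ 0 := ofReal_ne_zero.mpr hR.ne'
  unfold Xm Pool.Agent.N784.HC.LXm GGm
  rw [Finset.prod_mul_distrib, Finset.prod_inv_distrib]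
  have h : (R : ℂ) ^ (1 / 2 - z) = (R : ℂ) ^ ((1 - z) / 2) / (R : ℂ) ^ (z / 2) := by
    rw [← Complex.cpow_sub _ _ hRc]
    congr 1
    ring
  rw [h]
  generalize (R : ℂ) ^ ((1 - z) / 2) = a
  generalize (R : ℂ) ^ (z / 2) = b
  generalize (∏ i, Complex.Gammaℝ (z + μ i)) = Q
  generalize hQ : (∏ i, Complex.Gammaℝ (1 - z + μ i)) = P
  rw [div_eq_mul_inv a b, div_eq_mul_inv, mul_inv]
  ring

theorem Xm_diff (w : ℂ) {R : ℝ} (hR : 0 < R) {μ : ι → ℝ} (hμ : ∀ i, 0 ≤ μ i) {z : ℂ}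
    (hz : z.re < 1) : DifferentiableAt ℂ (Xm w R μ) z := by
  have hRc : (R : ℂ) ≠ 0 := ofReal_ne_zero.mpr hR.ne'
  unfold Xm
  refine DifferentiableAt.mul (DifferentiableAt.mul (differentiableAt_const w) ?_) ?_
  · exact DifferentiableAt.const_cpow (by fun_prop) (Or.inl hRc)
  · refine DifferentiableAt.fun_finsetProd fun i _ => DifferentiableAt.mul ?_ ?_
    · have h1 : DifferentiableAt ℂ Complex.Gammaℝ (1 - z + μ i) := by
        apply Gammaℝ_diff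
        have h2 : (1 - z + (μ i : ℂ)).re = 1 - z.re + μ i := by simp
        have h3 := hμ i
        rw [h2]
        linarith
      have h2 : DifferentiableAt ℂ (fun z : ℂ => 1 - z + (μ i : ℂ)) z := by
        fun_prop
      exact DifferentiableAt.comp (g := Complex.Gammaℝ)
        (f := fun z : ℂ => 1 - z + (μ i : ℂ)) z h1 h2
    · have h1 : DifferentiableAt ℂ (fun s => (Complex.Gammaℝ s)⁻¹) (z + μ i) :=
        Complex.differentiable_Gammaℝ_inv _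
      have h2 : DifferentiableAt ℂ (fun z : ℂ => z + (μ i : ℂ)) z := by fun_prop
      exact DifferentiableAt.comp (g := fun s => (Complex.Gammaℝ s)⁻¹)
        (f := fun z : ℂ => z + (μ i : ℂ)) z h1 h2

theorem Xm_ne {w : ℂ} (hw : w ≠ 0) {R : ℝ} (hR : 0 < R) {μ : ι → ℝ} (hμ : ∀ i, 0 ≤ μ i) {z : ℂ}
    (hz0 : 0 < z.re) (hz : z.re < 1) : Xm w R μ z ≠ 0 := by
  have hRc : (R : ℂ) ≠ 0 := ofReal_ne_zero.mpr hR.ne'
  unfold Xm
  refine mul_ne_zero (mul_ne_zero hw ?_) (Finset.prod_ne_zero_iff.2 fun i _ => mul_ne_zero ?_ ?_)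
  · rw [Ne, Complex.cpow_eq_zero_iff]
    exact fun h => hRc h.1
  · apply Complex.Gammaℝ_ne_zero_of_re_pos
    have h2 : (1 - z + (μ i : ℂ)).re = 1 - z.re + μ i := by simp
    have h3 := hμ i
    rw [h2]
    linarith
  · apply inv_ne_zero
    apply Complex.Gammaℝ_ne_zero_of_re_pos
    have h2 : (z + (μ i : ℂ)).re = z.re + μ i := by simp
    have h3 := hμ i
    rw [h2]
    linarith

theorem Xm_bound (m : ℕ) {V : ℝ} (hV : 0 ≤ V) : ∃ C : ℝ, 1 ≤ C ∧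
    ∀ (w : ℂ), ‖w‖ = 1 → ∀ (R : ℝ), 0 < R → ∀ (μ : ι → ℝ),
      (∀ i, 0 ≤ μ i ∧ μ i ≤ V) → ∀ z : ℂ, 1 / 2 - m ≤ z.re → z.re ≤ 1 / 2 →
        ‖Xm w R μ z‖ ≤ C * R ^ (1 / 2 - z.re) * (1 + ‖z‖) ^ (m * Fintype.card ι) := by
  obtain ⟨A, hA, h⟩ := ratio_bound m hV
  refine ⟨A ^ Fintype.card ι, one_le_pow₀ hA, fun w hw R hR μ hμ z h1 h2 => ?_⟩
  have hz0 := norm_nonneg z
  unfold Xm
  rw [norm_mul, norm_mul, hw, one_mul, Complex.norm_cpow_eq_rpow_re_of_pos hR, norm_prod]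
  have h3 : (1 / 2 - z).re = 1 / 2 - z.re := by
    rw [Complex.sub_re]
    norm_num
  rw [h3]
  have h5 := Finset.prod_le_prod (s := (Finset.univ : Finset ι))
    (f := fun i => ‖Complex.Gammaℝ (1 - z + μ i) * (Complex.Gammaℝ (z + μ i))⁻¹‖)
    (fun i _ => norm_nonneg _) (fun i _ => h z h1 h2 (μ i) (hμ i).1 (hμ i).2)
  rw [Finset.prod_const, Finset.card_univ, mul_pow, ← pow_mul] at h5
  calc R ^ (1 / 2 - z.re) * ∏ i, ‖Complex.Gammaℝ (1 - z + μ i) * (Complex.Gammaℝ (z + μ i))⁻¹‖ ≤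
        R ^ (1 / 2 - z.re) * (A ^ Fintype.card ι * (1 + ‖z‖) ^ (m * Fintype.card ι)) :=
          mul_le_mul_of_nonneg_left h5 (by positivity)
    _ = _ := by ring

theorem Xm_fe {R : ℝ} (hR : 0 < R) {μ : ι → ℝ} (hμ : ∀ i, 0 ≤ μ i) {F : ℂ → ℂ} (hF : FEm R μ F)
    {w : ℂ} (hfe : ∀ z : ℂ, z.im ≠ 0 → F z = LXm w R μ z * H370.DL.refl F z) (z : ℂ)
    (hz : z.re < 1) : F z = Xm w R μ z * (starRingEnd ℂ) (F (1 - (starRingEnd ℂ) z)) := by
  have hF' : Continuous F := hF.diff.continuous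
  set L : ℝ → ℂ := fun t => ((z.re : ℝ) : ℂ) + (t : ℂ) * I with hL
  have hLc : Continuous L := by fun_prop
  have hLre : ∀ t, (L t).re = z.re := fun t => by simp [hL]
  have hLim : ∀ t, (L t).im = t := fun t => by simp [hL]
  have hc1 : Continuous fun t => F (L t) := hF'.comp hLc
  have hc2 : Continuous fun t => Xm w R μ (L t) *
      (starRingEnd ℂ) (F (1 - (starRingEnd ℂ) (L t))) := by
    refine Continuous.mul ?_ ?_
    · rw [continuous_iff_continuousAt]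
      intro t
      exact (Xm_diff w hR hμ (by rw [hLre]; exact hz)).continuousAt.comp hLc.continuousAt
    · exact Complex.continuous_conj.comp (hF'.comp (continuous_const.sub
        (Complex.continuous_conj.comp hLc)))
  have hfin : ({0} : Set ℝ).Finite := Set.finite_singleton _
  have hd : Dense (({0} : Set ℝ)ᶜ) := hfin.countable.dense_compl ℝ
  have h := hc1.ext_on hd hc2 (fun t ht => by
    show F (L t) = Xm w R μ (L t) * (starRingEnd ℂ) (F (1 - (starRingEnd ℂ) (L t)))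
    rw [Xm_eq_LXm w hR]
    refine hfe (L t) ?_
    rw [hLim]
    exact ht)
  have h1 := congrFun h z.im
  have h2 : L z.im = z := Complex.re_add_im z
  simp only [h2] at h1
  exact h1

/-- **the factor of the functional equation** -/
theorem Xm_exists (ι : Type) [Fintype ι] (m : ℕ) {V : ℝ} (hV : 0 ≤ V) : ∃ C : ℝ, 1 ≤ C ∧
    ∀ (R : ℝ), 0 < R → ∀ (μ : ι → ℝ), (∀ i, 0 ≤ μ i ∧ μ i ≤ V) → ∀ F : ℂ → ℂ,
      FEm R μ F → ∃ X : ℂ → ℂ, (∀ z : ℂ, z.re < 1 → DifferentiableAt ℂ X z) ∧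
        (∀ z : ℂ, z.re < 1 → F z = X z * (starRingEnd ℂ) (F (1 - (starRingEnd ℂ) z))) ∧
        (∀ z : ℂ, 0 < z.re → z.re < 1 → X z ≠ 0) ∧
        (∀ z : ℂ, 1 / 2 - m ≤ z.re → z.re ≤ 1 / 2 →
          ‖X z‖ ≤ C * R ^ (1 / 2 - z.re) * (1 + ‖z‖) ^ (m * Fintype.card ι)) := by
  obtain ⟨C, hC1, hC⟩ := Xm_bound (ι := ι) m hV
  refine ⟨C, hC1, fun R hR μ hμ F hF => ?_⟩
  obtain ⟨w, hw, hfe⟩ := fe_asymM hR hF
  have hw0 : w ≠ 0 := by
    intro h
    rw [h, norm_zero] at hw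
    exact zero_ne_one hw
  exact ⟨Xm w R μ, fun z hz => Xm_diff w hR (fun i => (hμ i).1) hz,
    fun z hz => Xm_fe hR (fun i => (hμ i).1) hF hfe z hz,
    fun z hz0 hz => Xm_ne hw0 hR (fun i => (hμ i).1) hz0 hz,
    fun z h1 h2 => hC w hw R hR μ hμ z h1 h2⟩

end Pool.Agent.Helper13.ZH
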