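import Pool.Agent.Helper13.ZH.Gam
import Pool.Graph.R_pool_sql_team_seeded_620a6dc7.A856.SD.Dat
import Pool.Graph.R_pool_sql_team_seeded_63374d34.N784.HC.Good2

/-!
The analytic data of the L-functions of the primitive Hecke characters of a given infinity type
(helper13; adapted from `Pool.Agent.A856.SD.Grow`, `Pool.Agent.A856.SD.GoodD`).
-/

set_option autoImplicit false

open NumberField Complex Filter Topology MeasureTheory

namespace Pool.Agent.Helper13.ZH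

open Pool.Agent.N784.HC
open Pool.Agent.A856.SD (Good)
open Pool.Agent.Y773 (LI)

/-- growth -/
theorem F_grow {ι : Type} [Fintype ι] (m : ℕ) {R V B : ℝ} (hR : 1 ≤ R) (hV : 0 ≤ V) {μ : ι → ℝ}
    (hμ : ∀ i, 0 ≤ μ i ∧ μ i ≤ V) {F : ℂ → ℂ} (hF : FEm R μ F)
    (hB : ∀ s : ℂ, 3 / 2 ≤ s.re → ‖F s‖ ≤ B) : ∃ C : ℝ, 0 ≤ C ∧ ∀ z : ℂ, 1 / 2 - m ≤ z.re →
      ‖F z‖ ≤ C * (1 + ‖z‖) ^ ((m + 1) * Fintype.card ι) := by
  have hB0 : 0 ≤ B := (norm_nonneg _).trans (hB (3 / 2) (by norm_num))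
  set d := Fintype.card ι with hd
  have hR0 : 0 < R := by linarith
  have hF' : FEm (R * 1) μ F := by rwa [mul_one]
  have hone : ∀ z : ℂ, 1 ≤ 1 + ‖z‖ := fun z => by linarith [norm_nonneg z]
  set K : ℝ := B * R * (1 + V) ^ d * 3 ^ d + B with hK
  have hK0 : 0 ≤ K := by positivity
  have hright : ∀ z : ℂ, -1 / 2 ≤ z.re → ‖F z‖ ≤ K * (1 + ‖z‖) ^ d := by
    intro z hz
    have hp : 1 ≤ (1 + ‖z‖) ^ d := one_le_pow₀ (hone z)
    rcases le_total z.re (3 / 2) with h | h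
    · have e1 := HH_boundM hR le_rfl hV hμ hF' hB z hz h
      rw [← hd] at e1
      unfold Pool.Agent.Y772.FE.HH at e1
      have e0 : ((1 : ℝ) : ℂ) ^ ((z - 3 / 2) / 2) = 1 := by
        rw [Complex.ofReal_one, Complex.one_cpow]
      rw [e0, mul_one, norm_mul, norm_inv, norm_pow] at e1
      have hne : z + 3 ≠ 0 := by
        intro h0
        have h1 := congrArg Complex.re h0
        simp at h1
        linarith
      have hpos : 0 < ‖z + 3‖ ^ d := by positivity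
      have e2 : ‖F z‖ ≤ B * R * (1 + V) ^ d * ‖z + 3‖ ^ d := by
        rw [← div_eq_mul_inv, div_le_iff₀ hpos] at e1
        exact e1
      have e3 : ‖z + 3‖ ≤ 3 * (1 + ‖z‖) := by
        have h1 := norm_add_le z 3
        have h2 : ‖(3 : ℂ)‖ = 3 := by simp
        rw [h2] at h1
        linarith [norm_nonneg z]
      have e4 : ‖z + 3‖ ^ d ≤ 3 ^ d * (1 + ‖z‖) ^ d := by
        rw [← mul_pow]
        exact pow_le_pow_left₀ (norm_nonneg _) e3 d
      calc ‖F z‖ ≤ B * R * (1 + V) ^ d * ‖z + 3‖ ^ d := e2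
        _ ≤ B * R * (1 + V) ^ d * (3 ^ d * (1 + ‖z‖) ^ d) :=
            mul_le_mul_of_nonneg_left e4 (by positivity)
        _ = B * R * (1 + V) ^ d * 3 ^ d * (1 + ‖z‖) ^ d := by ring
        _ ≤ K * (1 + ‖z‖) ^ d := by
            apply mul_le_mul_of_nonneg_right _ (by positivity)
            rw [hK]
            linarith
    · calc ‖F z‖ ≤ B := hB z h
        _ ≤ K := by
            rw [hK]
            have : 0 ≤ B * R * (1 + V) ^ d * 3 ^ d := by positivity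
            linarith
        _ ≤ K * (1 + ‖z‖) ^ d := le_mul_of_one_le_right hK0 hp
  obtain ⟨C, hC1, hC⟩ := Xm_exists ι m hV
  obtain ⟨X, -, hX, -, hXb⟩ := hC R hR0 μ hμ F hF
  refine ⟨K + C * R ^ (m : ℝ) * K * 2 ^ d, by positivity, fun z hz => ?_⟩
  have hp1 : (1 + ‖z‖) ^ d ≤ (1 + ‖z‖) ^ ((m + 1) * d) :=
    pow_le_pow_right₀ (hone z) (by nlinarith)
  rcases le_total z.re (1 / 2) with h | h
  · have e1 := hX z (by linarith)
    have e2 := hXb z hz h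
    have e3 := hright (1 - (starRingEnd ℂ) z) (by simp; linarith)
    have e4 : ‖1 - (starRingEnd ℂ) z‖ ≤ 1 + ‖z‖ := by
      have h1 := norm_sub_le (1 : ℂ) ((starRingEnd ℂ) z)
      rw [norm_one, RCLike.norm_conj] at h1
      exact h1
    have e5 : (1 + ‖1 - (starRingEnd ℂ) z‖) ^ d ≤ 2 ^ d * (1 + ‖z‖) ^ d := by
      rw [← mul_pow]
      exact pow_le_pow_left₀ (by positivity) (by linarith [norm_nonneg z]) d
    have e6 : R ^ (1 / 2 - z.re) ≤ R ^ (m : ℝ) :=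
      Real.rpow_le_rpow_of_exponent_le hR (by linarith)
    rw [e1, norm_mul, RCLike.norm_conj]
    calc ‖X z‖ * ‖F (1 - (starRingEnd ℂ) z)‖
        ≤ (C * R ^ (m : ℝ) * (1 + ‖z‖) ^ (m * d)) * (K * (2 ^ d * (1 + ‖z‖) ^ d)) := by
          apply mul_le_mul _ _ (norm_nonneg _) (by positivity)
          · refine e2.trans ?_
            gcongr
          · exact e3.trans (mul_le_mul_of_nonneg_left e5 hK0)
      _ = C * R ^ (m : ℝ) * K * 2 ^ d * (1 + ‖z‖) ^ ((m + 1) * d) := by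
          have h9 : (1 + ‖z‖) ^ ((m + 1) * d) = (1 + ‖z‖) ^ (m * d) * (1 + ‖z‖) ^ d := by
            rw [← pow_add, Nat.add_mul, Nat.one_mul]
          rw [h9]
          ring
      _ ≤ (K + C * R ^ (m : ℝ) * K * 2 ^ d) * (1 + ‖z‖) ^ ((m + 1) * d) := by
          apply mul_le_mul_of_nonneg_right _ (by positivity)
          linarith
  · calc ‖F z‖ ≤ K * (1 + ‖z‖) ^ d := hright z (by linarith)
      _ ≤ K * (1 + ‖z‖) ^ ((m + 1) * d) := mul_le_mul_of_nonneg_left hp1 hK0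
      _ ≤ (K + C * R ^ (m : ℝ) * K * 2 ^ d) * (1 + ‖z‖) ^ ((m + 1) * d) := by
          apply mul_le_mul_of_nonneg_right _ (by positivity)
          have : 0 ≤ C * R ^ (m : ℝ) * K * 2 ^ d := by positivity
          linarith

/-- **the analytic data of the primitive characters of type `n`** -/
theorem good_data (K : Type) [Field K] [NumberField K] {n : (K →+* ℂ) → ℕ} (hn : CTyp n)
    (hn0 : n ≠ 0) (m : ℕ) :
    ∃ C : ℝ, 1 ≤ C ∧ ∀ (𝔣 : Ideal (𝓞 K)) (ψ : Ideal (𝓞 K) →*₀ ℂ), 𝔣 ≠ ⊤ → IsHecke K 𝔣 n ψ →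
      ∃ F X : ℂ → ℂ,
      Good K m ((m + 1) * Fintype.card (K →+* ℂ)) C (Ideal.absNorm 𝔣) ψ F X := by
  obtain ⟨C0, hC0, hX⟩ := Xm_exists (K →+* ℂ) m (V := (∑ ψ, (n ψ : ℝ)) + 3) (by positivity)
  obtain ⟨A, hA, hdir⟩ := Pool.Agent.Y772.DK.t_dirK K
  set D : ℝ := ((Ideal.absNorm (differentIdeal ℤ (𝓞 K)) : ℕ) : ℝ) with hD
  have hD1 : 1 ≤ D := by
    have h1 : Ideal.absNorm (differentIdeal ℤ (𝓞 K)) ≠ 0 := by
      rw [Ne, Ideal.absNorm_eq_zero_iff]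
      exact differentIdeal_ne_bot
    rw [hD]
    exact_mod_cast Nat.one_le_iff_ne_zero.2 h1
  have hDm : 1 ≤ D ^ m := one_le_pow₀ hD1
  refine ⟨C0 * D ^ m, one_le_mul_of_one_le_of_one_le hC0 hDm, ?_⟩
  intro 𝔣 ψ htop h
  obtain ⟨e, he, hc, hmod⟩ := h.modK htop
  have hprimK := h.primK htop (e := e) hc
  have htyp := hn.fty he hc
  have hinf := inf_fty hn hn0 e
  have hψ1 : ∀ 𝔞, ‖ψ 𝔞‖ ≤ 1 := hmod.norm_le_one
  obtain ⟨F, hFE, hFL⟩ := fe_prim htyp hinf.ne hprimK hmod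
  have hN1 : (1 : ℝ) ≤ ((Ideal.absNorm 𝔣 : ℕ) : ℝ) := by
    have h1 : Ideal.absNorm 𝔣 ≠ 0 := by
      rw [Ne, Ideal.absNorm_eq_zero_iff]
      exact h.ne_bot
    exact_mod_cast Nat.one_le_iff_ne_zero.2 h1
  set R : ℝ := ((Ideal.absNorm 𝔣 * Ideal.absNorm (differentIdeal ℤ (𝓞 K)) : ℕ) : ℝ) with hR
  have hRe : R = ((Ideal.absNorm 𝔣 : ℕ) : ℝ) * D := by
    rw [hR, hD]
    push_cast
    ring
  have hR1 : 1 ≤ R := by
    rw [hRe]
    exact one_le_mul_of_one_le_of_one_le hN1 hD1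
  have hμ : ∀ i, 0 ≤ ex (fty n e) i ∧ ex (fty n e) i ≤ (∑ ψ, (n ψ : ℝ)) + 3 :=
    fun w => ⟨ex_nonneg _ _, ex_le K he w⟩
  obtain ⟨X, x1, x2, x3, x4⟩ := hX R (by linarith) _ hμ F hFE
  have hdp := hdir ψ hψ1
  have hB : ∀ s : ℂ, 3 / 2 ≤ s.re → ‖F s‖ ≤ A := by
    intro s hs
    rw [hFL s (by linarith)]
    exact hdp.2.2.2.2.1 s hs
  refine ⟨F, X, ⟨hψ1, hFE.diff, hFL, x1, x2, x3, ?_,
    F_grow m hR1 (by positivity) hμ hFE hB⟩⟩
  intro z hz1 hz2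
  refine (x4 z hz1 hz2).trans ?_
  have ht0 : 0 ≤ 1 / 2 - z.re := by linarith
  have htm : 1 / 2 - z.re ≤ m := by linarith
  have h1 : R ^ (1 / 2 - z.re) ≤ D ^ m * ((Ideal.absNorm 𝔣 : ℕ) : ℝ) ^ (1 / 2 - z.re) := by
    rw [hRe, Real.mul_rpow (by linarith) (by linarith), mul_comm]
    refine mul_le_mul_of_nonneg_right ?_ (Real.rpow_nonneg (by linarith) _)
    calc D ^ (1 / 2 - z.re) ≤ D ^ (m : ℝ) := Real.rpow_le_rpow_of_exponent_le hD1 htm
      _ = D ^ m := Real.rpow_natCast _ _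
  have h2 : (1 + ‖z‖) ^ (m * Fintype.card (K →+* ℂ)) ≤
      (1 + ‖z‖) ^ ((m + 1) * Fintype.card (K →+* ℂ)) := by
    refine pow_le_pow_right₀ (by linarith [norm_nonneg z]) ?_
    exact Nat.mul_le_mul_right _ (Nat.le_succ m)
  calc C0 * R ^ (1 / 2 - z.re) * (1 + ‖z‖) ^ (m * Fintype.card (K →+* ℂ))
      ≤ C0 * (D ^ m * ((Ideal.absNorm 𝔣 : ℕ) : ℝ) ^ (1 / 2 - z.re)) *
        (1 + ‖z‖) ^ ((m + 1) * Fintype.card (K →+* ℂ)) := by
        refine mul_le_mul (mul_le_mul_of_nonneg_left h1 (by linarith)) h2 (by positivity) ?_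
        exact mul_nonneg (by linarith) (mul_nonneg (by linarith)
          (Real.rpow_nonneg (by linarith) _))
    _ = _ := by ring

end Pool.Agent.Helper13.ZH
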