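import Pool.Agent.Helper13.ZH.Wt
import Pool.Graph.R_pool_sql_team_seeded_63374d34.N784.CZ.Crv

/-!
The number of all the zeros of the product of the Hecke L-functions of a given type modulo `𝔮` and of
their conjugates, for all `(N(𝔮) T^d)^h ≤ N(𝔮)` (helper13).
-/

set_option autoImplicit false
set_option linter.unusedSectionVars false

open NumberField Complex Filter Topology Set

namespace Pool.Agent.Helper13.ZH

open Pool.Agent.Y773 (TPos LI)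
open Pool.Agent.Y767 (Mq Cls cls)
open Pool.Agent.Y773.IQ (ofM' tM LL LL_eq absNorm_pos')
open Pool.Agent.N784.HC
open Pool.Agent.N784.CZ
open Pool.Agent.N784.AD (pi1 Un one_le_Un cls_card_le hK)
open H370 (zset mult NN Nd Ns)
open Pool.Agent.H82R3.EK (cnt NN_eq Ns_le strip line)

/-- **the number of all the zeros** -/
theorem low_all (K : Type) [Field K] [NumberField K]
    {n : (K →+* ℂ) → ℕ} (hn : CTyp n) (hn0 : n ≠ 0) (h : ℝ) (hh : 0 < h)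
    (ε η : ℝ) (hε : 0 < ε) (hη : 0 < η) : ∃ δ X₀ : ℝ, 0 < δ ∧
    ∀ (𝔮 : Ideal (𝓞 K)) (_ : 𝔮 ≠ ⊥) (htop : 𝔮 ≠ ⊤), X₀ ≤ (Ideal.absNorm 𝔮 : ℝ) →
      (Dn n htop).Nonempty → (Un 𝔮 : ℝ) ≤ (Ideal.absNorm 𝔮 : ℝ) ^ δ →
      ∀ L : (Mq 𝔮 →* ℂˣ) → ℂ → ℂ,
      (∀ F ∈ Dn n htop, Differentiable ℂ (L F) ∧ ∀ s : ℂ, 1 < s.re → L F s = LI (ofM' htop F) s) →
      ∀ J : Finset (Mq 𝔮 →* ℂˣ), (∀ F, F ∈ J ↔ F ∈ Dn n htop) →
      ∀ T : ℝ, (Ideal.absNorm 𝔮 : ℝ) ^ η ≤ T →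
        ((Ideal.absNorm 𝔮 : ℝ) * T ^ Module.finrank ℚ K) ^ h ≤ (Ideal.absNorm 𝔮 : ℝ) →
        1 ≤ T ∧
        (1 - ε) * (Nat.card (Cls (pi1 htop)) * (T / Real.pi *
          Real.log ((Ideal.absNorm 𝔮 : ℝ) * T ^ Module.finrank ℚ K))) ≤
          (cnt (fun s => ∏ F ∈ J, (L F s * cf (L F) s)) (strip T (2 * T)) : ℝ) := by
  classical
  obtain ⟨A, hA, hprim⟩ := primF K hn
  obtain ⟨εm, hεm⟩ : ∃ εm : ℝ, εm = min (ε / 2) (1 / 4) := ⟨_, rfl⟩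
  have hεm0 : 0 < εm := by
    rw [hεm]
    exact lt_min (by positivity) (by norm_num)
  have hεm2 : εm ≤ ε / 2 := by rw [hεm]; exact min_le_left _ _
  have hεm3 : εm ≤ 1 / 4 := by rw [hεm]; exact min_le_right _ _
  have hπ3 := Real.pi_gt_three
  have hπ4 := Real.pi_lt_four
  obtain ⟨δ₁, X₁, hδ₁, -, hX₁, H1⟩ := mainN K n hn hn0 1 h εm η (by norm_num)
    (by linarith) hh hεm0 hη
  obtain ⟨δ₂, X₂, hδ₂, -, hX₂, H2⟩ := mainN K (nc n) (CTyp_nc hn) (nc_ne hn0) 1 h εm η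
    (by norm_num) (by linarith) hh hεm0 hη
  obtain ⟨h₀, hh₀⟩ : ∃ h₀ : ℝ, h₀ = (hK K : ℝ) := ⟨_, rfl⟩
  have hh0 : 0 ≤ h₀ := by rw [hh₀]; exact Nat.cast_nonneg _
  obtain ⟨Q, hQ⟩ : ∃ Q : ℝ, Q = 2 * h₀ / ε + 1 := ⟨_, rfl⟩
  have hQ1 : 1 ≤ Q := by
    rw [hQ]
    have h2 : 0 ≤ 2 * h₀ / ε := by positivity
    linarith
  refine ⟨min δ₁ δ₂, max (max X₁ X₂) (max (Q ^ 4) 3), lt_min hδ₁ hδ₂, ?_⟩
  intro 𝔮 hbot htop hX hne hU L hL J hJ T hT hTh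
  obtain ⟨N, hN⟩ : ∃ N : ℝ, N = (Ideal.absNorm 𝔮 : ℝ) := ⟨_, rfl⟩
  rw [← hN] at hX hU hT hTh ⊢
  have hN3 : 3 ≤ N := (le_max_right _ _).trans ((le_max_right _ _).trans hX)
  have hNQ : Q ^ 4 ≤ N := (le_max_left _ _).trans ((le_max_right _ _).trans hX)
  have hN1 : 1 ≤ N := by linarith
  have hN0 : 0 < N := by linarith
  have hU1 : (Un 𝔮 : ℝ) ≤ N ^ δ₁ :=
    hU.trans (Real.rpow_le_rpow_of_exponent_le hN1 (min_le_left _ _))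
  have hU2 : (Un 𝔮 : ℝ) ≤ N ^ δ₂ :=
    hU.trans (Real.rpow_le_rpow_of_exponent_le hN1 (min_le_right _ _))
  have hT1 : 1 ≤ T := (Real.one_le_rpow hN1 hη.le).trans hT
  have hT0 : 0 < T := by linarith
  obtain ⟨d, hd⟩ : ∃ d : ℕ, d = Module.finrank ℚ K := ⟨_, rfl⟩
  rw [← hd] at hTh ⊢
  have hTd1 : 1 ≤ T ^ d := one_le_pow₀ hT1
  have hR1 : 1 ≤ N * T ^ d := by nlinarith
  -- the families
  have hX1 : X₁ ≤ N := (le_max_left _ _).trans ((le_max_left _ _).trans hX)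
  have hX2 : X₂ ≤ N := (le_max_right _ _).trans ((le_max_left _ _).trans hX)
  obtain ⟨-, hfin, hf1, H1⟩ := H1 𝔮 hbot (by rw [← hN]; exact hX1) (fun _ => hne)
    (by rw [← hN]; exact hU1)
  obtain ⟨-, -, -, H2⟩ := H2 𝔮 hbot (by rw [← hN]; exact hX2)
    (fun _ => Dn_nc_nonempty htop hne) (by rw [← hN]; exact hU2)
  rw [← hN, ← hd] at H1 H2
  rw [← hN] at hf1
  obtain ⟨Fs, hFs⟩ : ∃ Fs : Finset (Ideal (𝓞 K) →*₀ ℂ), Fs = hfin.toFinset := ⟨_, rfl⟩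
  have hFm : ∀ ψ, ψ ∈ Fs ↔ ψ ∈ FamN n 𝔮 := fun ψ => by rw [hFs, Set.Finite.mem_toFinset]
  have hFc : (FamN n 𝔮).ncard = Fs.card := by rw [hFs, Set.ncard_eq_toFinset_card _ hfin]
  have hFc' : (FamN (nc n) 𝔮).ncard = (Fs.image cc').card := by
    rw [FamN_cc', Set.ncard_image_of_injective _ cc'_inj, hFc,
      Finset.card_image_of_injective _ cc'_inj]
  have hFci : (Fs.image cc').card = Fs.card := Finset.card_image_of_injective _ cc'_inj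
  rw [hFc] at hf1 H1
  rw [hFc'] at H2
  obtain ⟨f, hf⟩ : ∃ f : ℝ, f = (Fs.card : ℝ) := ⟨_, rfl⟩
  have hf0 : 0 ≤ f := by rw [hf]; exact Nat.cast_nonneg _
  obtain ⟨-, q1, q2, -, -⟩ := H1 T hT hTh Fs (fun ψ hψ => (hFm ψ).mp hψ) (by
    nlinarith [hf0, hf, hδ₁])
  obtain ⟨-, r1, r2, -, -⟩ := H2 T hT hTh (Fs.image cc') (fun ψ hψ => by
    obtain ⟨ψ', h1, rfl⟩ := Finset.mem_image.mp hψ
    rw [FamN_cc']
    exact ⟨ψ', (hFm ψ').mp h1, rfl⟩) (by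
    rw [hFci]
    nlinarith [hf0, hf, hδ₂])
  rw [Finset.sum_image (fun a _ b _ h => cc'_inj h), hFci] at r2
  -- the sums over the family
  obtain ⟨S₁, hS₁⟩ : ∃ S₁ : ℝ, S₁ = ∑ ψ ∈ Fs, (NN (LL K ψ) T (2 * T) : ℝ) := ⟨_, rfl⟩
  obtain ⟨S₂, hS₂⟩ : ∃ S₂ : ℝ, S₂ = ∑ ψ ∈ Fs, (NN (LL K (cc' ψ)) T (2 * T) : ℝ) := ⟨_, rfl⟩
  obtain ⟨ℓ, hℓ⟩ : ∃ ℓ : ℝ, ℓ = Real.log (N * T ^ d) := ⟨_, rfl⟩
  rw [← hS₁] at q2
  rw [← hS₂] at r2
  rw [← hℓ, ← hf] at q2 r2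
  rw [← hf] at hf1
  have hℓ1 : 1 ≤ ℓ := by
    rw [hℓ, Real.le_log_iff_exp_le (by linarith)]
    have h1 := Real.exp_one_lt_d9
    nlinarith
  have hL' : ∀ ψ ∈ FamN n 𝔮, Differentiable ℂ (LL K ψ) ∧ ∀ s : ℂ, 1 < s.re → LL K ψ s = LI ψ s := by
    rintro ψ ⟨𝔣, h1, h2, h3⟩
    obtain ⟨-, G, g1, g2, -⟩ := hprim 𝔣 ψ h2 h3
    rw [LL_eq K g1 g2]
    exact ⟨g1, g2⟩
  obtain ⟨G, hG⟩ : ∃ G : ℂ → ℂ, G = fun s => ∏ F ∈ J, (L F s * cf (L F) s) := ⟨_, rfl⟩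
  have hp1 := prod_cnt hbot htop L hL hL' J hJ Fs hFm (T := T) (W := strip T (2 * T)) le_rfl
  rw [← hG] at hp1 ⊢
  obtain ⟨hlow, -⟩ := hp1
  -- in real numbers
  have e1 : ((∑ ψ ∈ Fs, (cnt (LL K ψ) (strip T (2 * T)) +
      cnt (LL K (cc' ψ)) (strip T (2 * T))) : ℕ) : ℝ) = S₁ + S₂ := by
    push_cast
    rw [Finset.sum_add_distrib, hS₁, hS₂]
    congr 1 <;> exact Finset.sum_congr rfl fun ψ _ => by rw [NN_eq]
  have hlowR : S₁ + S₂ ≤ (cnt G (strip T (2 * T)) : ℝ) := by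
    rw [← e1]
    exact_mod_cast hlow
  -- numbers
  have hNq : 0 < N ^ (1 / 4 : ℝ) := Real.rpow_pos_of_pos hN0 _
  have hQN : Q ≤ N ^ (1 / 4 : ℝ) := by
    have h1 := Real.rpow_le_rpow (by positivity) hNQ (by norm_num : (0 : ℝ) ≤ 1 / 4)
    rw [← Real.rpow_natCast, ← Real.rpow_mul (by linarith)] at h1
    norm_num at h1
    exact h1
  have hf34 : N ^ (3 / 4 : ℝ) ≤ f :=
    (Real.rpow_le_rpow_of_exponent_le hN1 (by linarith)).trans hf1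
  have e34 : N ^ (3 / 4 : ℝ) = N ^ (1 / 4 : ℝ) * N ^ (1 / 2 : ℝ) := by
    rw [← Real.rpow_add hN0]
    norm_num
  have hNh : 1 ≤ N ^ (1 / 2 : ℝ) := Real.one_le_rpow hN1 (by norm_num)
  have hSS : (1 - εm) * (f * (T / Real.pi * ℓ)) ≤ S₁ + S₂ := by
    have h1 : (1 - εm) * (f * (T / Real.pi * ℓ)) =
        (1 - εm) * (f * (T / (2 * Real.pi) * ℓ)) + (1 - εm) * (f * (T / (2 * Real.pi) * ℓ)) := by
      field_simp
      ring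
    rw [h1]
    linarith
  refine ⟨hT1, ?_⟩
  refine le_trans ?_ hlowR
  refine le_trans ?_ hSS
  have hcls : (Nat.card (Cls (pi1 htop)) : ℝ) ≤ h₀ + f := by
    rw [hh₀, hf, ← hFc]
    exact_mod_cast cls_le_add hbot htop hne
  have h1 : 2 * h₀ / ε ≤ f := by
    have h2 : 2 * h₀ / ε ≤ Q := by
      rw [hQ]
      linarith
    refine h2.trans (hQN.trans (le_trans ?_ hf34))
    rw [e34]
    exact le_mul_of_one_le_right hNq.le hNh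
  have h3 : h₀ ≤ ε / 2 * f := by
    rw [div_le_iff₀ hε] at h1
    linarith
  have h4 : 0 ≤ T / Real.pi * ℓ := by
    have : 0 ≤ ℓ := by linarith
    positivity
  by_cases hε1 : 1 ≤ ε
  · have h5 : (1 - ε) * (Nat.card (Cls (pi1 htop)) * (T / Real.pi * ℓ)) ≤ 0 :=
      mul_nonpos_of_nonpos_of_nonneg (by linarith) (by positivity)
    have h6 : 0 ≤ (1 - εm) * (f * (T / Real.pi * ℓ)) := by
      have : 0 ≤ 1 - εm := by linarith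
      positivity
    rw [← hℓ]
    linarith
  · push Not at hε1
    rw [← hℓ]
    have h5 : (1 - ε) * (Nat.card (Cls (pi1 htop)) : ℝ) ≤ (1 - εm) * f := by
      calc (1 - ε) * (Nat.card (Cls (pi1 htop)) : ℝ) ≤ (1 - ε) * (h₀ + f) :=
            mul_le_mul_of_nonneg_left hcls (by linarith)
        _ ≤ (1 - ε) * ((1 + ε / 2) * f) := by
            refine mul_le_mul_of_nonneg_left ?_ (by linarith)
            linarith
        _ ≤ (1 - εm) * f := by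
            have : (1 - ε) * (1 + ε / 2) ≤ 1 - εm := by nlinarith
            nlinarith
    calc (1 - ε) * (Nat.card (Cls (pi1 htop)) * (T / Real.pi * ℓ))
        = ((1 - ε) * (Nat.card (Cls (pi1 htop)) : ℝ)) * (T / Real.pi * ℓ) := by ring
      _ ≤ ((1 - εm) * f) * (T / Real.pi * ℓ) := mul_le_mul_of_nonneg_right h5 h4
      _ = _ := by ring

end Pool.Agent.Helper13.ZH
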